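import Mathlib

/-!
# A phase average for forms which are nonnegative on tensors of rank one
-/

set_option autoImplicit false

namespace Pool.Agent.H31HS

open Finset
open scoped ComplexConjugate

/-- pairs of vectors -/
abbrev Z2 : Type := (Fin 3 → ℂ) × (Fin 3 → ℂ)

/-- sesquilinear form -/
noncomputable def Sf (β : Fin 3 → Fin 3 → Fin 3 → Fin 3 → ℂ) (t t' : Fin 3 → Fin 3 → ℂ) : ℂ :=
  ∑ c, ∑ d, ∑ c', ∑ d', β c d c' d' * (t c d * conj (t' c' d'))

/-- its real quadratic form -/
noncomputable def qS (β : Fin 3 → Fin 3 → Fin 3 → Fin 3 → ℂ) (t : Fin 3 → Fin 3 → ℂ) : ℝ :=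
  (Sf β t t).re

/-- `x ⊗ x` -/
def T1 (x : Z2) : Fin 3 → Fin 3 → ℂ := fun c d => x.1 c * x.2 d

/-- the polarisation -/
def T2 (x y : Z2) : Fin 3 → Fin 3 → ℂ := fun c d => x.1 c * y.2 d + y.1 c * x.2 d

/-- `x + ε y` -/
def cb (ε : ℂ) (x y : Z2) : Z2 := (fun c => x.1 c + ε * y.1 c, fun d => x.2 d + ε * y.2 d)

variable {β : Fin 3 → Fin 3 → Fin 3 → Fin 3 → ℂ}

theorem Sf_avg (t0 t1 t2 : Fin 3 → Fin 3 → ℂ) :
    Sf β (fun c d => t0 c d + t1 c d + t2 c d) (fun c d => t0 c d + t1 c d + t2 c d) +
      Sf β (fun c d => t0 c d + Complex.I * t1 c d - t2 c d)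
        (fun c d => t0 c d + Complex.I * t1 c d - t2 c d) +
      Sf β (fun c d => t0 c d - t1 c d + t2 c d) (fun c d => t0 c d - t1 c d + t2 c d) +
      Sf β (fun c d => t0 c d - Complex.I * t1 c d - t2 c d)
        (fun c d => t0 c d - Complex.I * t1 c d - t2 c d) =
      4 * (Sf β t0 t0 + Sf β t1 t1 + Sf β t2 t2) := by
  unfold Sf
  simp only [← Finset.sum_add_distrib, Finset.mul_sum]
  refine Finset.sum_congr rfl fun c _ => Finset.sum_congr rfl fun d _ =>
    Finset.sum_congr rfl fun c' _ => Finset.sum_congr rfl fun d' _ => ?_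
  simp only [map_add, map_sub, map_mul, Complex.conj_I]
  ring_nf
  simp only [Complex.I_sq]
  ring

theorem qS_avg (t0 t1 t2 : Fin 3 → Fin 3 → ℂ) :
    qS β (fun c d => t0 c d + t1 c d + t2 c d) +
      qS β (fun c d => t0 c d + Complex.I * t1 c d - t2 c d) +
      qS β (fun c d => t0 c d - t1 c d + t2 c d) +
      qS β (fun c d => t0 c d - Complex.I * t1 c d - t2 c d) =
      4 * (qS β t0 + qS β t1 + qS β t2) := by
  have h := congrArg Complex.re (Sf_avg (β := β) t0 t1 t2)
  simp only [Complex.add_re] at h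
  unfold qS
  rw [h]
  simp [Complex.mul_re]

theorem T1_cb (ε : ℂ) (x y : Z2) :
    T1 (cb ε x y) = fun c d => T1 x c d + ε * T2 x y c d + ε ^ 2 * T1 y c d := by
  funext c d
  simp only [T1, T2, cb]
  ring

theorem T2_cb (ε : ℂ) (x y l : Z2) :
    T2 (cb ε x y) l = fun c d => T2 x l c d + ε * T2 y l c d := by
  funext c d
  simp only [T2, cb]
  ring

theorem avg_T1 (x y : Z2) :
    qS β (T1 (cb 1 x y)) + qS β (T1 (cb Complex.I x y)) + qS β (T1 (cb (-1) x y)) +
      qS β (T1 (cb (-Complex.I) x y)) = 4 * (qS β (T1 x) + qS β (T2 x y) + qS β (T1 y)) := by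
  rw [← qS_avg]
  have e1 : T1 (cb 1 x y) = fun c d => T1 x c d + T2 x y c d + T1 y c d := by
    rw [T1_cb]
    funext c d
    ring
  have e2 : T1 (cb Complex.I x y) = fun c d => T1 x c d + Complex.I * T2 x y c d - T1 y c d := by
    rw [T1_cb, Complex.I_sq]
    funext c d
    ring
  have e3 : T1 (cb (-1) x y) = fun c d => T1 x c d - T2 x y c d + T1 y c d := by
    rw [T1_cb]
    funext c d
    ring
  have e4 : T1 (cb (-Complex.I) x y) =
      fun c d => T1 x c d - Complex.I * T2 x y c d - T1 y c d := by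
    rw [T1_cb, neg_sq, Complex.I_sq]
    funext c d
    ring
  rw [e1, e2, e3, e4]

theorem avg_T2 (x y l : Z2) :
    qS β (T2 (cb 1 x y) l) + qS β (T2 (cb Complex.I x y) l) + qS β (T2 (cb (-1) x y) l) +
      qS β (T2 (cb (-Complex.I) x y) l) = 4 * (qS β (T2 x l) + qS β (T2 y l)) := by
  have h := qS_avg (β := β) (T2 x l) (T2 y l) (fun _ _ => 0)
  have h0 : qS β (fun _ _ => 0) = 0 := by
    simp [qS, Sf]
  rw [h0, add_zero] at h
  rw [← h]
  have e1 : T2 (cb 1 x y) l = fun c d => T2 x l c d + T2 y l c d + 0 := by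
    rw [T2_cb]
    funext c d
    ring
  have e2 : T2 (cb Complex.I x y) l = fun c d => T2 x l c d + Complex.I * T2 y l c d - 0 := by
    rw [T2_cb]
    funext c d
    ring
  have e3 : T2 (cb (-1) x y) l = fun c d => T2 x l c d - T2 y l c d + 0 := by
    rw [T2_cb]
    funext c d
    ring
  have e4 : T2 (cb (-Complex.I) x y) l =
      fun c d => T2 x l c d - Complex.I * T2 y l c d - 0 := by
    rw [T2_cb]
    funext c d
    ring
  rw [e1, e2, e3, e4]

/-- the sum over the pairs of a list -/
noncomputable def Fl (β : Fin 3 → Fin 3 → Fin 3 → Fin 3 → ℂ) : List Z2 → ℝ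
  | [] => 0
  | x :: L => qS β (T1 x) + (L.map fun l => qS β (T2 x l)).sum + Fl β L

theorem Fl_nonneg (h : ∀ x : Z2, 0 ≤ qS β (T1 x)) : ∀ (L : List Z2) (x : Z2), 0 ≤ Fl β (x :: L)
  | [], x => by
    simp only [Fl, List.map_nil, List.sum_nil, add_zero]
    exact h x
  | y :: L, x => by
    have h1 := Fl_nonneg h L (cb 1 x y)
    have h2 := Fl_nonneg h L (cb Complex.I x y)
    have h3 := Fl_nonneg h L (cb (-1) x y)
    have h4 := Fl_nonneg h L (cb (-Complex.I) x y)
    have e : Fl β (cb 1 x y :: L) + Fl β (cb Complex.I x y :: L) + Fl β (cb (-1) x y :: L) +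
        Fl β (cb (-Complex.I) x y :: L) = 4 * Fl β (x :: y :: L) := by
      simp only [Fl, List.map_cons, List.sum_cons]
      have a1 := avg_T1 (β := β) x y
      have a2 : (L.map fun l => qS β (T2 (cb 1 x y) l)).sum +
          (L.map fun l => qS β (T2 (cb Complex.I x y) l)).sum +
          (L.map fun l => qS β (T2 (cb (-1) x y) l)).sum +
          (L.map fun l => qS β (T2 (cb (-Complex.I) x y) l)).sum =
          4 * ((L.map fun l => qS β (T2 x l)).sum + (L.map fun l => qS β (T2 y l)).sum) := by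
        rw [← List.sum_map_add, ← List.sum_map_add, ← List.sum_map_add, ← List.sum_map_add,
          ← List.sum_map_mul_left]
        congr 1
        refine List.map_congr_left fun l _ => ?_
        exact avg_T2 x y l
      linarith
    linarith

theorem T2_comm (x y : Z2) : T2 x y = T2 y x := by
  funext c d
  simp only [T2]
  ring

theorem qS_T2_self (x : Z2) : qS β (T2 x x) = 4 * qS β (T1 x) := by
  have : Sf β (T2 x x) (T2 x x) = 4 * Sf β (T1 x) (T1 x) := by
    unfold Sf
    simp only [Finset.mul_sum]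
    refine Finset.sum_congr rfl fun c _ => Finset.sum_congr rfl fun d _ =>
      Finset.sum_congr rfl fun c' _ => Finset.sum_congr rfl fun d' _ => ?_
    simp only [T1, T2, map_add, map_mul]
    ring
  unfold qS
  rw [this]
  simp [Complex.mul_re]

theorem full_sum (L : List Z2) :
    (L.map fun x => (L.map fun y => qS β (T2 x y)).sum).sum =
      2 * Fl β L + 2 * (L.map fun x => qS β (T1 x)).sum := by
  induction L with
  | nil => simp [Fl]
  | cons x L ih =>
    simp only [List.map_cons, List.sum_cons, Fl, List.sum_map_add]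
    rw [ih, qS_T2_self]
    have : (L.map fun y => qS β (T2 y x)) = L.map fun y => qS β (T2 x y) :=
      List.map_congr_left fun y _ => by rw [T2_comm]
    rw [this]
    ring

theorem full_nonneg (h : ∀ x : Z2, 0 ≤ qS β (T1 x)) {K : Type} [Fintype K] (z : K → Z2) :
    0 ≤ ∑ k, ∑ l, qS β (T2 (z k) (z l)) := by
  have e : ∑ k, ∑ l, qS β (T2 (z k) (z l)) =
      (((Finset.univ : Finset K).toList.map z).map fun x =>
        (((Finset.univ : Finset K).toList.map z).map fun y => qS β (T2 x y)).sum).sum := by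
    simp only [List.map_map]
    rw [← Finset.sum_map_toList]
    congr 1
    refine List.map_congr_left fun k _ => ?_
    simp only [Function.comp_apply]
    rw [← Finset.sum_map_toList]
    rfl
  rw [e, full_sum]
  have h1 : 0 ≤ Fl β ((Finset.univ : Finset K).toList.map z) := by
    cases hL : (Finset.univ : Finset K).toList.map z with
    | nil => simp [Fl]
    | cons x L => exact Fl_nonneg h L x
  have h2 : 0 ≤ (((Finset.univ : Finset K).toList.map z).map fun x => qS β (T1 x)).sum := by
    refine List.sum_nonneg fun r hr => ?_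
    obtain ⟨x, _, rfl⟩ := List.mem_map.1 hr
    exact h x
  linarith

end Pool.Agent.H31HS
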