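import Pool.Agent.H31HS.Tri
import Pool.Agent.H31HS.Phase
import Pool.Agent.H864R3.Chern3

/-!
# The double alternating sum of a Hermitian tensor which is even for a splitting `3 + 3`
-/

set_option autoImplicit false

namespace Pool.Agent.H31HS

open Finset Pool.Agent.TH598.GV Pool.Agent.R735.HA
open scoped ComplexConjugate ComplexOrder

/-- `4`-tensors on `ℂ⁶` -/
abbrev T4 : Type := I6 → I6 → I6 → I6 → ℂ

/-- the polarised double alternating sum -/
noncomputable def G3 (A B C : T4) : ℂ :=
  ∑ τ : Equiv.Perm I6, cs τ * P3 (fun i j => A i j (τ (0, false)) (τ (0, true)))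
    (fun i j => B i j (τ (1, false)) (τ (1, true))) (fun i j => C i j (τ (2, false)) (τ (2, true)))

theorem GG_G3 (H : T4) : GG H = G3 H H H := by
  rw [GG_left]
  unfold G3
  refine Finset.sum_congr rfl fun τ _ => ?_
  congr 1
  rw [P3_eq]
  congr 1
  funext b
  fin_cases b <;> rfl

theorem G3_comm (A B C : T4) : G3 A B C = G3 B A C := by
  let κ : Equiv.Perm I6 := Equiv.prodCongrLeft (fun _ : Bool => Equiv.swap (0 : Fin 3) 1)
  have hκ : cs κ = 1 := by
    unfold cs
    have : Equiv.Perm.sign κ = 1 := by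
      simp only [κ]
      rw [Equiv.Perm.sign_prodCongrLeft]
      decide
    rw [this]
    simp
  unfold G3
  rw [← Equiv.sum_comp (Equiv.mulRight κ)]
  refine Finset.sum_congr rfl fun σ _ => ?_
  simp only [Equiv.coe_mulRight, cs_mul, hκ, mul_one, Equiv.Perm.mul_apply]
  have h0 : ∀ b, κ (0, b) = (1, b) := fun b => by simp [κ]
  have h1 : ∀ b, κ (1, b) = (0, b) := fun b => by simp [κ]
  have h2 : ∀ b, κ (2, b) = (2, b) := fun b => by
    simp only [κ, Equiv.prodCongrLeft_apply]
    rw [Equiv.swap_apply_of_ne_of_ne (by decide) (by decide)]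
  rw [h0, h0, h1, h1, h2, h2, P3_comm]

theorem G3_comm' (A B C : T4) : G3 A B C = G3 A C B := by
  let κ : Equiv.Perm I6 := Equiv.prodCongrLeft (fun _ : Bool => Equiv.swap (1 : Fin 3) 2)
  have hκ : cs κ = 1 := by
    unfold cs
    have : Equiv.Perm.sign κ = 1 := by
      simp only [κ]
      rw [Equiv.Perm.sign_prodCongrLeft]
      decide
    rw [this]
    simp
  unfold G3
  rw [← Equiv.sum_comp (Equiv.mulRight κ)]
  refine Finset.sum_congr rfl fun σ _ => ?_
  simp only [Equiv.coe_mulRight, cs_mul, hκ, mul_one, Equiv.Perm.mul_apply]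
  have h0 : ∀ b, κ (1, b) = (2, b) := fun b => by simp [κ]
  have h1 : ∀ b, κ (2, b) = (1, b) := fun b => by simp [κ]
  have h2 : ∀ b, κ (0, b) = (0, b) := fun b => by
    simp only [κ, Equiv.prodCongrLeft_apply]
    rw [Equiv.swap_apply_of_ne_of_ne (by decide) (by decide)]
  rw [h0, h0, h1, h1, h2, h2, P3_comm']

theorem G3_add (A A' B C : T4) :
    G3 (fun i j k l => A i j k l + A' i j k l) B C = G3 A B C + G3 A' B C := by
  unfold G3 P3
  simp only [← Finset.sum_add_distrib]
  refine Finset.sum_congr rfl fun τ _ => ?_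
  rw [← mul_add, ← Finset.sum_add_distrib]
  congr 1
  refine Finset.sum_congr rfl fun σ _ => ?_
  ring

/-- the part of a tensor on bivectors which do not mix the sides -/
noncomputable def mP (H : T4) : T4 := fun i j k l => if i.2 = j.2 then H i j k l else 0

/-- the part of a tensor on bivectors which mix the sides -/
noncomputable def xP (H : T4) : T4 := fun i j k l => if i.2 = j.2 then 0 else H i j k l

theorem mP_add_xP (H : T4) : (fun i j k l => mP H i j k l + xP H i j k l) = H := by
  funext i j k l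
  unfold mP xP
  split_ifs <;> simp

theorem G3_MMM (A B C : T4) : G3 (mP A) (mP B) (mP C) = 0 := by
  unfold G3
  refine Finset.sum_eq_zero fun τ _ => ?_
  have h : P3 (fun i j => mP A i j (τ (0, false)) (τ (0, true)))
      (fun i j => mP B i j (τ (1, false)) (τ (1, true)))
      (fun i j => mP C i j (τ (2, false)) (τ (2, true))) = 0 :=
    P3_MMM _ _ _ (fun i j h => if_neg h) (fun i j h => if_neg h) (fun i j h => if_neg h)
  rw [h, mul_zero]

theorem G3_MXX (A B C : T4) : G3 (mP A) (xP B) (xP C) = 0 := by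
  unfold G3
  refine Finset.sum_eq_zero fun τ _ => ?_
  have h : P3 (fun i j => mP A i j (τ (0, false)) (τ (0, true)))
      (fun i j => xP B i j (τ (1, false)) (τ (1, true)))
      (fun i j => xP C i j (τ (2, false)) (τ (2, true))) = 0 :=
    P3_MXX _ _ _ (fun i j h => if_neg h) (fun i j h => if_pos h) (fun i j h => if_pos h)
  rw [h, mul_zero]

theorem GG_expand (H : T4) :
    GG H = GG (xP H) + 3 * G3 (mP H) (mP H) (xP H) := by
  rw [GG_G3, GG_G3 (xP H)]
  conv_lhs => rw [← mP_add_xP H]
  have e1 : ∀ B C : T4, G3 (fun i j k l => mP H i j k l + xP H i j k l) B C =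
      G3 (mP H) B C + G3 (xP H) B C := fun B C => G3_add _ _ _ _
  have e2 : ∀ A C : T4, G3 A (fun i j k l => mP H i j k l + xP H i j k l) C =
      G3 A (mP H) C + G3 A (xP H) C := fun A C => by
    rw [G3_comm, e1, G3_comm A, G3_comm A]
  have e3 : ∀ A B : T4, G3 A B (fun i j k l => mP H i j k l + xP H i j k l) =
      G3 A B (mP H) + G3 A B (xP H) := fun A B => by
    rw [G3_comm', e2, G3_comm' A (mP H), G3_comm' A (xP H)]
  rw [e1, e2, e2, e3, e3, e3, e3, G3_MMM, G3_MXX]
  rw [G3_comm (xP H) (mP H) (xP H), G3_MXX, G3_comm' (xP H) (xP H) (mP H),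
    G3_comm (xP H) (mP H) (xP H), G3_MXX, G3_comm' (mP H) (xP H) (mP H),
    G3_comm (xP H) (mP H) (mP H), G3_comm' (mP H) (xP H) (mP H)]
  ring

section values

variable {H : T4}

/-- evenness -/
def Even (H : T4) : Prop := ∀ i j k l, i.2 = j.2 → k.2 ≠ l.2 → H i j k l = 0

theorem Even.symm (hH : HS H) (he : Even H) (i j k l : I6) (h1 : i.2 ≠ j.2) (h2 : k.2 = l.2) :
    H i j k l = 0 := by
  rw [hH.herm k l i j, he k l i j h2 h1, map_zero]

theorem alt' (hH : HS H) (i j k l : I6) : H i j l k = - H i j k l := by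
  rw [hH.herm l k i j, hH.alt k l i j, hH.herm k l i j, map_neg]

/-- the block of `H` on bivectors which do not mix the sides -/
noncomputable def MM (H : T4) : Matrix I6 I6 ℂ := Matrix.of fun s s' =>
  H (s.1 + 1, s.2) (s.1 + 2, s.2) (s'.1 + 1, s'.2) (s'.1 + 2, s'.2)

/-- the mixed block of `H` -/
def bb (H : T4) : Fin 3 → Fin 3 → Fin 3 → Fin 3 → ℂ := fun c d c' d' =>
  H (c, false) (d, true) (c', false) (d', true)

theorem G3_MMX_eq (hH : HS H) (he : Even H) :
    G3 (mP H) (mP H) (xP H) = 128 * ∑ c, ∑ d, ∑ c', ∑ d',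
      (MM H (c, false) (c', false) * MM H (d, true) (d', true) +
        MM H (c, false) (d', true) * MM H (d, true) (c', false)) * bb H c d c' d' := by
  have am : ∀ (k l i j : I6), mP H j i k l = - mP H i j k l := by
    intro k l i j
    unfold mP
    by_cases h : i.2 = j.2
    · rw [if_pos h, if_pos h.symm, hH.alt]
    · rw [if_neg h, if_neg (fun h' => h h'.symm), neg_zero]
  have ax : ∀ (k l i j : I6), xP H j i k l = - xP H i j k l := by
    intro k l i j
    unfold xP
    by_cases h : i.2 = j.2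
    · rw [if_pos h, if_pos h.symm, neg_zero]
    · rw [if_neg h, if_neg (fun h' => h h'.symm), hH.alt]
  have h1 : ∀ (k l k' l' k'' l'' : I6),
      P3 (fun i j => mP H i j k l) (fun i j => mP H i j k' l') (fun i j => xP H i j k'' l'') =
      -8 * ∑ c : Fin 3, ∑ d : Fin 3,
      (H (c + 1, false) (c + 2, false) k l * H (d + 1, true) (d + 2, true) k' l' +
        H (d + 1, true) (d + 2, true) k l * H (c + 1, false) (c + 2, false) k' l') *
        H (c, false) (d, true) k'' l'' := by
    intro k l k' l' k'' l''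
    rw [P3_MMX _ _ _ (am k l) (am k' l') (ax k'' l'') (fun i j h => if_neg h)
      (fun i j h => if_neg h) (fun i j h => if_pos h)]
    simp [cM, mP, xP]
  have h2 : ∀ c d : Fin 3, ∑ τ : Equiv.Perm I6, cs τ *
      ((H (c + 1, false) (c + 2, false) (τ (0, false)) (τ (0, true)) *
          H (d + 1, true) (d + 2, true) (τ (1, false)) (τ (1, true)) +
        H (d + 1, true) (d + 2, true) (τ (0, false)) (τ (0, true)) *
          H (c + 1, false) (c + 2, false) (τ (1, false)) (τ (1, true))) *
        H (c, false) (d, true) (τ (2, false)) (τ (2, true))) =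
      P3 (H (c + 1, false) (c + 2, false)) (H (d + 1, true) (d + 2, true))
          (H (c, false) (d, true)) +
        P3 (H (d + 1, true) (d + 2, true)) (H (c + 1, false) (c + 2, false))
          (H (c, false) (d, true)) := by
    intro c d
    unfold P3
    rw [← Finset.sum_add_distrib]
    exact Finset.sum_congr rfl fun τ _ => by ring
  have h3 : ∀ c d : Fin 3, P3 (H (c + 1, false) (c + 2, false)) (H (d + 1, true) (d + 2, true))
          (H (c, false) (d, true)) = -8 * ∑ c' : Fin 3, ∑ d' : Fin 3,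
      (MM H (c, false) (c', false) * MM H (d, true) (d', true) +
        MM H (c, false) (d', true) * MM H (d, true) (c', false)) * bb H c d c' d' := by
    intro c d
    exact P3_MMX (H (c + 1, false) (c + 2, false)) (H (d + 1, true) (d + 2, true))
      (H (c, false) (d, true)) (fun i j => alt' hH _ _ i j) (fun i j => alt' hH _ _ i j)
      (fun i j => alt' hH _ _ i j) (fun i j h => he _ _ _ _ rfl h) (fun i j h => he _ _ _ _ rfl h)
      (fun i j h => he.symm hH _ _ _ _ (by simp) h)
  have h4 : G3 (mP H) (mP H) (xP H) = ∑ τ : Equiv.Perm I6, cs τ * (-8 * ∑ c : Fin 3, ∑ d : Fin 3,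
      ((H (c + 1, false) (c + 2, false) (τ (0, false)) (τ (0, true)) *
          H (d + 1, true) (d + 2, true) (τ (1, false)) (τ (1, true)) +
        H (d + 1, true) (d + 2, true) (τ (0, false)) (τ (0, true)) *
          H (c + 1, false) (c + 2, false) (τ (1, false)) (τ (1, true))) *
        H (c, false) (d, true) (τ (2, false)) (τ (2, true)))) := by
    unfold G3
    exact Finset.sum_congr rfl fun τ _ => by rw [h1]
  have h5 : G3 (mP H) (mP H) (xP H) = -8 * ∑ c : Fin 3, ∑ d : Fin 3, ∑ τ : Equiv.Perm I6, cs τ *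
      ((H (c + 1, false) (c + 2, false) (τ (0, false)) (τ (0, true)) *
          H (d + 1, true) (d + 2, true) (τ (1, false)) (τ (1, true)) +
        H (d + 1, true) (d + 2, true) (τ (0, false)) (τ (0, true)) *
          H (c + 1, false) (c + 2, false) (τ (1, false)) (τ (1, true))) *
        H (c, false) (d, true) (τ (2, false)) (τ (2, true))) := by
    rw [h4]
    simp only [Finset.mul_sum]
    rw [Finset.sum_comm]
    refine Finset.sum_congr rfl fun c _ => ?_
    rw [Finset.sum_comm]
    refine Finset.sum_congr rfl fun d _ => ?_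
    exact Finset.sum_congr rfl fun τ _ => by ring
  rw [h5]
  simp only [h2]
  have h6 : ∀ c d : Fin 3, P3 (H (c + 1, false) (c + 2, false)) (H (d + 1, true) (d + 2, true))
          (H (c, false) (d, true)) +
        P3 (H (d + 1, true) (d + 2, true)) (H (c + 1, false) (c + 2, false))
          (H (c, false) (d, true)) = -16 * ∑ c' : Fin 3, ∑ d' : Fin 3,
      (MM H (c, false) (c', false) * MM H (d, true) (d', true) +
        MM H (c, false) (d', true) * MM H (d, true) (c', false)) * bb H c d c' d' := by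
    intro c d
    rw [P3_comm (H (d + 1, true) (d + 2, true)), h3]
    ring
  simp only [h6]
  simp only [Finset.mul_sum]
  refine Finset.sum_congr rfl fun c _ => Finset.sum_congr rfl fun d _ =>
    Finset.sum_congr rfl fun c' _ => Finset.sum_congr rfl fun d' _ => by ring

/-- the mixed terms, for a Gram matrix -/
theorem mixed_gram {K : Type} [Fintype K] (β : Fin 3 → Fin 3 → Fin 3 → Fin 3 → ℂ)
    (m : K → I6 → ℂ) (N : I6 → I6 → ℂ) (hN : ∀ s s', N s s' = ∑ k, m k s * conj (m k s')) :
    ((∑ k, ∑ l, qS β (T2 (fun c => m k (c, false), fun d => m k (d, true))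
        (fun c => m l (c, false), fun d => m l (d, true))) : ℝ)) =
      (2 * ∑ c, ∑ d, ∑ c', ∑ d', (N (c, false) (c', false) * N (d, true) (d', true) +
        N (c, false) (d', true) * N (d, true) (c', false)) * β c d c' d').re := by
  unfold qS
  simp only [← Complex.re_sum]
  congr 1
  unfold Sf T2
  have e1 : ∀ c d c' d' : Fin 3, (N (c, false) (c', false) * N (d, true) (d', true) +
        N (c, false) (d', true) * N (d, true) (c', false)) * β c d c' d' =
      ∑ k, ∑ l, (m k (c, false) * conj (m k (c', false)) * (m l (d, true) * conj (m l (d', true))) +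
        m k (c, false) * conj (m k (d', true)) * (m l (d, true) * conj (m l (c', false)))) *
          β c d c' d' := by
    intro c d c' d'
    rw [hN, hN, hN, hN, Finset.sum_mul_sum, Finset.sum_mul_sum, ← Finset.sum_add_distrib,
      Finset.sum_mul]
    refine Finset.sum_congr rfl fun k _ => ?_
    rw [← Finset.sum_add_distrib, Finset.sum_mul]
  have e2 : ∀ c d c' d' : Fin 3, 2 * ((N (c, false) (c', false) * N (d, true) (d', true) +
        N (c, false) (d', true) * N (d, true) (c', false)) * β c d c' d') =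
      ∑ k, ∑ l, β c d c' d' * ((m k (c, false) * m l (d, true) + m l (c, false) * m k (d, true)) *
        conj (m k (c', false) * m l (d', true) + m l (c', false) * m k (d', true))) := by
    intro c d c' d'
    rw [e1, two_mul]
    nth_rewrite 2 [Finset.sum_comm]
    rw [← Finset.sum_add_distrib]
    refine Finset.sum_congr rfl fun k _ => ?_
    rw [← Finset.sum_add_distrib]
    refine Finset.sum_congr rfl fun l _ => ?_
    simp only [map_add, map_mul]
    ring
  simp only [Finset.mul_sum, e2]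
  have e3 : ∀ F : K → K → Fin 3 → Fin 3 → Fin 3 → Fin 3 → ℂ,
      ∑ k, ∑ l, ∑ c, ∑ d, ∑ c', ∑ d', F k l c d c' d' =
      ∑ c, ∑ d, ∑ c', ∑ d', ∑ k, ∑ l, F k l c d c' d' := by
    intro F
    have h : ∀ k, ∑ l, ∑ c, ∑ d, ∑ c', ∑ d', F k l c d c' d' =
        ∑ c, ∑ d, ∑ c', ∑ d', ∑ l, F k l c d c' d' := by
      intro k
      rw [Finset.sum_comm]
      refine Finset.sum_congr rfl fun c _ => ?_
      rw [Finset.sum_comm]
      refine Finset.sum_congr rfl fun d _ => ?_
      rw [Finset.sum_comm]
      refine Finset.sum_congr rfl fun c' _ => ?_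
      rw [Finset.sum_comm]
    simp only [h]
    rw [Finset.sum_comm]
    refine Finset.sum_congr rfl fun c _ => ?_
    rw [Finset.sum_comm]
    refine Finset.sum_congr rfl fun d _ => ?_
    rw [Finset.sum_comm]
    refine Finset.sum_congr rfl fun c' _ => ?_
    rw [Finset.sum_comm]
  rw [e3]

/-- the mixed terms are nonnegative -/
theorem mixed_nonneg (hM : (MM H).PosSemidef) (hX : ∀ x : Z2, 0 ≤ qS (bb H) (T1 x)) :
    0 ≤ (∑ c, ∑ d, ∑ c', ∑ d',
      (MM H (c, false) (c', false) * MM H (d, true) (d', true) +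
        MM H (c, false) (d', true) * MM H (d, true) (c', false)) * bb H c d c' d').re := by
  obtain ⟨n, v, hv⟩ := Matrix.posSemidef_iff_eq_sum_vecMulVec.mp hM
  have h1 := mixed_gram (bb H) v (fun s s' => MM H s s') (by
    intro s s'
    rw [hv, Matrix.sum_apply]
    rfl)
  have h2 := full_nonneg hX (fun k : Fin n => ((fun c => v k (c, false),
    fun d => v k (d, true)) : Z2))
  have h3 : (2 * ∑ c, ∑ d, ∑ c', ∑ d',
      (MM H (c, false) (c', false) * MM H (d, true) (d', true) +
        MM H (c, false) (d', true) * MM H (d, true) (c', false)) * bb H c d c' d' : ℂ).re =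
      2 * (∑ c, ∑ d, ∑ c', ∑ d',
      (MM H (c, false) (c', false) * MM H (d, true) (d', true) +
        MM H (c, false) (d', true) * MM H (d, true) (c', false)) * bb H c d c' d').re := by
    simp [Complex.mul_re]
  rw [← h1] at h3
  linarith

/-- the term of the mixed block, as a sum over four permutations -/
theorem xP_perms (hH : HS H) (he : Even H) : GG (xP H) =
    64 * ∑ π : Equiv.Perm (Fin 3), ∑ ρ : Equiv.Perm (Fin 3), ∑ π' : Equiv.Perm (Fin 3),
      ∑ ρ' : Equiv.Perm (Fin 3), cs π * cs ρ * (cs π' * cs ρ') *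
        ∏ b, bb H (π b) (ρ b) (π' b) (ρ' b) := by
  have ax : ∀ (k l i j : I6), xP H j i k l = - xP H i j k l := by
    intro k l i j
    unfold xP
    by_cases h : i.2 = j.2
    · rw [if_pos h, if_pos h.symm, neg_zero]
    · rw [if_neg h, if_neg (fun h' => h h'.symm), hH.alt]
  rw [GG_left]
  have h1 : ∀ τ : Equiv.Perm I6, PP (fun (b : Fin 3) i j => xP H i j (τ (b, false)) (τ (b, true))) =
      8 * ∑ π : Equiv.Perm (Fin 3), ∑ ρ : Equiv.Perm (Fin 3), cs π * cs ρ *
        ∏ b, H (π b, false) (ρ b, true) (τ (b, false)) (τ (b, true)) := by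
    intro τ
    rw [PP_mixed (fun (b : Fin 3) i j => xP H i j (τ (b, false)) (τ (b, true)))
      (fun b i j => ax _ _ i j) (fun b i j h => if_pos h)]
    norm_num
    rfl
  simp only [h1]
  have h2 : ∀ π ρ : Equiv.Perm (Fin 3), ∑ τ : Equiv.Perm I6, cs τ *
      ∏ b, H (π b, false) (ρ b, true) (τ (b, false)) (τ (b, true)) =
      8 * ∑ π' : Equiv.Perm (Fin 3), ∑ ρ' : Equiv.Perm (Fin 3), cs π' * cs ρ' *
        ∏ b, bb H (π b) (ρ b) (π' b) (ρ' b) := by
    intro π ρ
    have h := PP_mixed (fun (b : Fin 3) k l => H (π b, false) (ρ b, true) k l)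
      (fun b i j => alt' hH _ _ i j) (fun b i j h => he.symm hH _ _ _ _ (by simp) h)
    unfold PP at h
    rw [h]
    norm_num
    rfl
  have h3 : ∑ τ : Equiv.Perm I6, cs τ * (8 * ∑ π : Equiv.Perm (Fin 3),
      ∑ ρ : Equiv.Perm (Fin 3), cs π * cs ρ *
        ∏ b, H (π b, false) (ρ b, true) (τ (b, false)) (τ (b, true))) =
      8 * ∑ π : Equiv.Perm (Fin 3), ∑ ρ : Equiv.Perm (Fin 3), cs π * cs ρ *
        ∑ τ : Equiv.Perm I6, cs τ *
          ∏ b, H (π b, false) (ρ b, true) (τ (b, false)) (τ (b, true)) := by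
    simp only [Finset.mul_sum]
    rw [Finset.sum_comm]
    refine Finset.sum_congr rfl fun π _ => ?_
    rw [Finset.sum_comm]
    refine Finset.sum_congr rfl fun ρ _ => ?_
    exact Finset.sum_congr rfl fun τ _ => by ring
  refine h3.trans ?_
  simp only [h2, Finset.mul_sum]
  refine Finset.sum_congr rfl fun π _ => Finset.sum_congr rfl fun ρ _ =>
    Finset.sum_congr rfl fun π' _ => Finset.sum_congr rfl fun ρ' _ => by ring

/-- the family of matrices of the mixed block -/
def Bm (H : T4) : Fin 3 → Fin 3 → Matrix (Fin 3) (Fin 3) ℂ :=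
  fun k l => Matrix.of fun a b => bb H k a l b

theorem cs_mul3 (σ τ : Equiv.Perm (Fin 3)) : cs (σ * τ) = cs σ * cs τ := by
  unfold cs
  rw [Equiv.Perm.sign_mul]
  push_cast
  rfl

theorem cs_sq (π : Equiv.Perm (Fin 3)) : cs π * cs π = 1 := by
  unfold cs
  rw [← Int.cast_mul]
  rcases Int.units_eq_one_or (Equiv.Perm.sign π) with h | h <;> simp [h]

theorem xP_Phi (hH : HS H) (he : Even H) : GG (xP H) = 384 * H864R3.Phi6 (Bm H) := by
  rw [xP_perms hH he]
  have h1 : ∀ π : Equiv.Perm (Fin 3), ∑ ρ : Equiv.Perm (Fin 3), ∑ π' : Equiv.Perm (Fin 3),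
      ∑ ρ' : Equiv.Perm (Fin 3), cs π * cs ρ * (cs π' * cs ρ') *
        ∏ b, bb H (π b) (ρ b) (π' b) (ρ' b) = H864R3.Phi6 (Bm H) := by
    intro π
    have e : H864R3.Phi6 (Bm H) = ∑ ρ : Equiv.Perm (Fin 3), ∑ π' : Equiv.Perm (Fin 3),
      ∑ ρ' : Equiv.Perm (Fin 3), cs ρ * (cs π' * cs ρ') *
        ∏ b, bb H b (ρ b) (π' b) (ρ' b) := by
      unfold H864R3.Phi6
      simp only [Finset.mul_sum]
      rw [Finset.sum_comm]
      refine Finset.sum_congr rfl fun ρ _ => Finset.sum_congr rfl fun π' _ =>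
        Finset.sum_congr rfl fun ρ' _ => ?_
      have h : ∏ b, bb H b (ρ b) (π' b) (ρ' b) = ∏ k, Bm H k (π' k) (ρ k) (ρ' k) := rfl
      rw [h]
      unfold cs
      ring
    rw [e]
    rw [← Equiv.sum_comp (Equiv.mulRight π)]
    refine Finset.sum_congr rfl fun ρ _ => ?_
    rw [← Equiv.sum_comp (Equiv.mulRight π)]
    refine Finset.sum_congr rfl fun π' _ => ?_
    rw [← Equiv.sum_comp (Equiv.mulRight π)]
    refine Finset.sum_congr rfl fun ρ' _ => ?_
    simp only [Equiv.coe_mulRight, cs_mul3, Equiv.Perm.mul_apply]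
    rw [← Equiv.prod_comp π (fun b => bb H b (ρ b) (π' b) (ρ' b))]
    have h := cs_sq π
    linear_combination (cs ρ * (cs π' * cs ρ') * (∏ b, bb H (π b) (ρ (π b)) (π' (π b))
      (ρ' (π b)))) * (cs π * cs π + 1) * h
  simp only [h1]
  rw [Finset.sum_const, Finset.card_univ, Fintype.card_perm, Fintype.card_fin, nsmul_eq_mul]
  norm_num [Nat.factorial]
  ring

theorem Phi_nonneg (hH : HS H) (hX : ∀ x : Z2, 0 ≤ qS (bb H) (T1 x)) :
    0 ≤ H864R3.Phi6 (Bm H) := by
  apply H864R3.core_nonneg
  intro ξ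
  have hherm : ∀ c d c' d' : Fin 3, bb H c' d' c d = conj (bb H c d c' d') := fun c d c' d' =>
    hH.herm _ _ _ _
  have hent : ∀ a b, (∑ i : Fin 3, ∑ j : Fin 3, (ξ i * star (ξ j)) • Bm H i j) a b =
      ∑ i : Fin 3, ∑ j : Fin 3, (ξ i * star (ξ j)) * bb H i a j b := by
    intro a b
    simp only [Matrix.sum_apply, Matrix.smul_apply, smul_eq_mul]
    rfl
  have hh : (∑ i : Fin 3, ∑ j : Fin 3, (ξ i * star (ξ j)) • Bm H i j).IsHermitian := by
    ext a b
    rw [Matrix.conjTranspose_apply, hent, hent, star_sum, Finset.sum_comm]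
    refine Finset.sum_congr rfl fun i _ => ?_
    rw [star_sum]
    refine Finset.sum_congr rfl fun j _ => ?_
    rw [star_mul', star_mul', star_star, hherm i b j a]
    simp only [Complex.star_def]
    ring
  refine Matrix.PosSemidef.of_dotProduct_mulVec_nonneg hh fun x => ?_
  have hq : star x ⬝ᵥ ((∑ i : Fin 3, ∑ j : Fin 3, (ξ i * star (ξ j)) • Bm H i j).mulVec x) =
      Sf (bb H) (T1 (ξ, fun d => conj (x d))) (T1 (ξ, fun d => conj (x d))) := by
    simp only [dotProduct, Matrix.mulVec, hent, Pi.star_apply, Finset.mul_sum, Finset.sum_mul]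
    unfold Sf T1
    have e : ∀ F : Fin 3 → Fin 3 → Fin 3 → Fin 3 → ℂ, ∑ a, ∑ b, ∑ i, ∑ j, F a b i j =
        ∑ i, ∑ a, ∑ j, ∑ b, F a b i j := by
      intro F
      have h : ∀ a, ∑ b, ∑ i, ∑ j, F a b i j = ∑ i, ∑ j, ∑ b, F a b i j := by
        intro a
        rw [Finset.sum_comm]
        refine Finset.sum_congr rfl fun i _ => ?_
        rw [Finset.sum_comm]
      simp only [h]
      rw [Finset.sum_comm]
    rw [e]
    refine Finset.sum_congr rfl fun i _ => Finset.sum_congr rfl fun a _ =>
      Finset.sum_congr rfl fun j _ => Finset.sum_congr rfl fun b _ => ?_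
    simp only [map_mul, Complex.conj_conj, Complex.star_def]
    ring
  have him : (star x ⬝ᵥ ((∑ i : Fin 3, ∑ j : Fin 3,
      (ξ i * star (ξ j)) • Bm H i j).mulVec x)).im = 0 := hh.im_star_dotProduct_mulVec_self x
  rw [Complex.le_def]
  refine ⟨?_, him.symm⟩
  rw [hq]
  exact hX _

/-- **The double alternating sum of an even tensor is nonnegative.** -/
theorem core (hH : HS H) (he : Even H) (hM : (MM H).PosSemidef)
    (hX : ∀ x : Z2, 0 ≤ qS (bb H) (T1 x)) : 0 ≤ (GG H).re := by
  rw [GG_expand, G3_MMX_eq hH he, xP_Phi hH he, Complex.add_re]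
  have h1 := (Complex.le_def.mp (Phi_nonneg hH hX)).1
  have h2 := mixed_nonneg hM hX
  have e1 : (384 * H864R3.Phi6 (Bm H)).re = 384 * (H864R3.Phi6 (Bm H)).re := by
    simp [Complex.mul_re]
  have e2 : ∀ z : ℂ, (3 * (128 * z)).re = 384 * z.re := fun z => by
    simp [Complex.mul_re]
    ring
  rw [e1, e2]
  simp only [Complex.zero_re] at h1
  linarith

end values

end Pool.Agent.H31HS
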