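import Pool.Agent.H31HS.Core

/-!
# Tensors vanishing on the bivectors of one side
-/

set_option autoImplicit false

namespace Pool.Agent.H31HS

open Finset Pool.Agent.TH598.GV Pool.Agent.R735.HA
open scoped ComplexConjugate ComplexOrder

section null

variable {H : T4}

/-- the part of a tensor on mixed bivectors, on both sides -/
noncomputable def xxP (H : T4) : T4 := fun i j k l =>
  if i.2 = j.2 then 0 else if k.2 = l.2 then 0 else H i j k l

theorem xxP_HS (hH : HS H) : HS (xxP H) := by
  constructor
  · intro i j k l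
    unfold xxP
    by_cases h1 : i.2 = j.2
    · by_cases h2 : k.2 = l.2
      · simp [h1, h2]
      · simp [h1, h2]
    · by_cases h2 : k.2 = l.2
      · simp [h1, h2]
      · simp only [h1, h2, if_false]
        exact hH.herm i j k l
  · intro i j k l
    unfold xxP
    by_cases h1 : i.2 = j.2
    · rw [if_pos h1, if_pos h1.symm, neg_zero]
    · rw [if_neg h1, if_neg (fun h => h1 h.symm)]
      split_ifs
      · rw [neg_zero]
      · exact hH.alt i j k l

theorem xxP_even (H : T4) : Even (xxP H) := by
  intro i j k l h1 _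
  unfold xxP
  rw [if_pos h1]

theorem xP_xxP (H : T4) : xP (xxP H) = xxP H := by
  funext i j k l
  unfold xP xxP
  split_ifs <;> rfl

theorem Bm_xxP (H : T4) : Bm (xxP H) = Bm H := by
  funext k l
  ext a b
  simp [Bm, bb, xxP]

/-- if a permutation has a pair on one side, it has a pair on the second side -/
theorem exists_pair (σ : Equiv.Perm I6) (b : Fin 3) (hb : (σ (b, false)).2 = (σ (b, true)).2) :
    ∃ b' : Fin 3, (σ (b', false)).2 = true ∧ (σ (b', true)).2 = true := by
  by_contra hcon
  push Not at hcon
  have h := cnt σ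
  have h1 : ∀ b' : Fin 3, (σ (b', false)).2.toNat + (σ (b', true)).2.toNat ≤ 1 := by
    intro b'
    have := hcon b'
    cases h2 : (σ (b', false)).2
    · cases h3 : (σ (b', true)).2 <;> simp
    · cases h3 : (σ (b', true)).2
      · simp
      · exact absurd h3 (this h2)
  have h2 : (σ (b, false)).2.toNat + (σ (b, true)).2.toNat = 0 := by
    have h3 := h1 b
    rw [hb] at h3 ⊢
    omega
  have h3 := h1 0
  have h4 := h1 1
  have h5 := h1 2
  fin_cases b
  · simp only [Fin.zero_eta, Fin.isValue] at h2
    omega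
  · simp only [Fin.mk_one, Fin.isValue] at h2
    omega
  · simp only [Fin.reduceFinMk, Fin.isValue] at h2
    omega

theorem GG_null (hH : HS H) (h0 : ∀ i j k l, i.2 = true → j.2 = true → H i j k l = 0) :
    GG H = 384 * H864R3.Phi6 (Bm H) := by
  have h0' : ∀ i j k l, k.2 = true → l.2 = true → H i j k l = 0 := by
    intro i j k l h1 h2
    rw [hH.herm k l i j, h0 k l i j h1 h2, map_zero]
  have h1 : GG H = GG (xxP H) := by
    unfold GG
    refine Finset.sum_congr rfl fun σ _ => Finset.sum_congr rfl fun τ _ => ?_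
    congr 1
    by_cases hσ : ∀ b : Fin 3, (σ (b, false)).2 ≠ (σ (b, true)).2
    · by_cases hτ : ∀ b : Fin 3, (τ (b, false)).2 ≠ (τ (b, true)).2
      · refine Finset.prod_congr rfl fun b _ => ?_
        unfold xxP
        rw [if_neg (hσ b), if_neg (hτ b)]
      · push Not at hτ
        obtain ⟨b, hb⟩ := hτ
        obtain ⟨b', h2, h3⟩ := exists_pair τ b hb
        rw [Finset.prod_eq_zero (Finset.mem_univ b') (h0' _ _ _ _ h2 h3),
          Finset.prod_eq_zero (Finset.mem_univ b)]
        unfold xxP
        rw [if_pos hb]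
        split_ifs <;> rfl
    · push Not at hσ
      obtain ⟨b, hb⟩ := hσ
      obtain ⟨b', h2, h3⟩ := exists_pair σ b hb
      rw [Finset.prod_eq_zero (Finset.mem_univ b') (h0 _ _ _ _ h2 h3),
        Finset.prod_eq_zero (Finset.mem_univ b)]
      unfold xxP
      rw [if_pos hb]
  rw [h1, ← xP_xxP, xP_Phi (xxP_HS hH) (xxP_even H), Bm_xxP]

end null

theorem G3_neg (A B C : T4) : G3 (fun i j k l => - A i j k l) B C = - G3 A B C := by
  unfold G3 P3
  rw [← Finset.sum_neg_distrib]
  refine Finset.sum_congr rfl fun τ _ => ?_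
  rw [← mul_neg, ← Finset.sum_neg_distrib]
  congr 1
  refine Finset.sum_congr rfl fun σ _ => ?_
  ring

theorem G3_add2 (A B B' C : T4) :
    G3 A (fun i j k l => B i j k l + B' i j k l) C = G3 A B C + G3 A B' C := by
  rw [G3_comm, G3_add, G3_comm B, G3_comm B']

theorem G3_add3 (A B C C' : T4) :
    G3 A B (fun i j k l => C i j k l + C' i j k l) = G3 A B C + G3 A B C' := by
  rw [G3_comm', G3_add2, G3_comm' A C B, G3_comm' A C' B]

theorem G3_neg2 (A B C : T4) : G3 A (fun i j k l => - B i j k l) C = - G3 A B C := by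
  rw [G3_comm, G3_neg, G3_comm B]

theorem G3_neg3 (A B C : T4) : G3 A B (fun i j k l => - C i j k l) = - G3 A B C := by
  rw [G3_comm', G3_neg2, G3_comm' A C B]

theorem GG_parallelogram (H K : T4) :
    GG (fun i j k l => H i j k l + K i j k l) + GG (fun i j k l => H i j k l - K i j k l) =
      2 * GG H + 6 * G3 H K K := by
  have e : (fun i j k l => H i j k l - K i j k l : T4) =
      fun i j k l => H i j k l + (fun i j k l => - K i j k l : T4) i j k l := by
    funext i j k l
    ring
  rw [GG_G3, e, GG_G3 (fun i j k l => H i j k l + (fun i j k l => - K i j k l : T4) i j k l),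
    GG_G3 H]
  simp only [G3_add, G3_add2, G3_add3, G3_neg, G3_neg2, G3_neg3]
  rw [G3_comm K H K, G3_comm' K K H, G3_comm K H K]
  ring

theorem GG_affine (H K : T4) (hK : ∀ i j k l, K i j k l ≠ 0 → i.2 = true ∧ j.2 = true) :
    GG (fun i j k l => H i j k l + K i j k l) + GG (fun i j k l => H i j k l - K i j k l) =
      2 * GG H := by
  rw [GG_parallelogram]
  have h : G3 H K K = 0 := by
    rw [G3_comm, G3_comm']
    unfold G3
    refine Finset.sum_eq_zero fun τ _ => ?_
    have h1 : P3 (fun i j => K i j (τ (0, false)) (τ (0, true)))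
        (fun i j => K i j (τ (1, false)) (τ (1, true)))
        (fun i j => H i j (τ (2, false)) (τ (2, true))) = 0 := by
      refine P3_zero _ _ _ fun i j i' j' i'' j'' hc => ?_
      by_cases h2 : K i j (τ (0, false)) (τ (0, true)) = 0
      · rw [h2, zero_mul, zero_mul]
      · by_cases h3 : K i' j' (τ (1, false)) (τ (1, true)) = 0
        · rw [h3, mul_zero, zero_mul]
        · obtain ⟨a1, a2⟩ := hK _ _ _ _ h2
          obtain ⟨a3, a4⟩ := hK _ _ _ _ h3
          rw [a1, a2, a3, a4] at hc
          simp only [Bool.toNat_true] at hc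
          omega
    rw [h1, mul_zero]
  rw [h]
  ring

end Pool.Agent.H31HS
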