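import Pool.Agent.H31HS.Core
import Pool.Agent.Y519.HB.Last
import Pool.Agent.TH598.GV.Geo2

/-!
# Curvature tensors in dimension six: from the coordinate theorem to Euclidean spaces
-/

set_option autoImplicit false

namespace Pool.Agent.H31HS

open Finset Module Pool.Agent.TH598.GV Pool.Agent.R735.HA Pool.Agent.W666.GB
open scoped ComplexConjugate ComplexOrder

section geo

variable {V : Type} [NormedAddCommGroup V] [InnerProductSpace ℝ V]

/-- minus the components of a tensor in a family of vectors -/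
noncomputable def cpt (S : V → V → V → V → ℝ) (f : I6 → V) : T4 :=
  fun i j k l => ((-S (f i) (f j) (f k) (f l) : ℝ) : ℂ)

theorem cpt_HS {S : V → V → V → V → ℝ} (hS : AlgCurv S) (f : I6 → V) : HS (cpt S f) := by
  constructor
  · intro i j k l
    unfold cpt
    rw [Complex.conj_ofReal, hS.pair]
  · intro i j k l
    unfold cpt
    rw [hS.anti]
    push_cast
    ring

theorem gbc_GG (e : OrthonormalBasis (Fin 3 × Bool) ℝ V) (S : V → V → V → V → ℝ) :
    - gbc e S = 1 / ((8 * Real.pi) ^ 3 * (Nat.factorial 3 : ℝ)) * (GG (cpt S e)).re := by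
  unfold cpt
  rw [Pool.Agent.TH828.J3423.GG_re]
  unfold gbc
  rw [← mul_neg]
  congr 1
  rw [← Finset.sum_neg_distrib]
  refine Finset.sum_congr rfl fun σ _ => ?_
  rw [← Finset.sum_neg_distrib]
  refine Finset.sum_congr rfl fun τ _ => ?_
  rw [Finset.prod_neg, Finset.card_univ, Fintype.card_fin]
  simp only [Pool.Agent.W666.GB.sn]
  ring

/-- **Bridge.** -/
theorem six_core (e : OrthonormalBasis (Fin 3 × Bool) ℝ V) {S : V → V → V → V → ℝ}
    (hS : AlgCurv S) (W : Matrix I6 I6 ℂ) (hW : W.det ≠ 0) (he : Even (Hc W (cpt S e)))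
    (hM : (MM (Hc W (cpt S e))).PosSemidef)
    (hX : ∀ x : Z2, 0 ≤ qS (bb (Hc W (cpt S e))) (T1 x)) : 0 ≤ - gbc e S := by
  have h1 := core (Hc_HS W (cpt_HS hS e)) he hM hX
  rw [GG_trans] at h1
  have h2 : W.det * conj W.det = ((Complex.normSq W.det : ℝ) : ℂ) := Complex.mul_conj _
  rw [h2, Complex.re_ofReal_mul] at h1
  have h3 : 0 < Complex.normSq W.det := Complex.normSq_pos.mpr hW
  have h4 : 0 ≤ (GG (cpt S e)).re := nonneg_of_mul_nonneg_right h1 h3
  rw [gbc_GG]
  have hπ := Real.pi_pos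
  positivity

/-- the matrix of a family of vectors -/
noncomputable def mf (e : OrthonormalBasis (Fin 3 × Bool) ℝ V) (f : I6 → V) : Matrix I6 I6 ℂ :=
  Matrix.of fun a i => ((inner ℝ (e a) (f i) : ℝ) : ℂ)

theorem Hc_mf (e : OrthonormalBasis (Fin 3 × Bool) ℝ V) {S : V → V → V → V → ℝ}
    (hS : AlgCurv S) (f : I6 → V) : Hc (mf e f) (cpt S e) = cpt S f := by
  funext i j k l
  have h1 := rq_eq hS e (fun a => inner ℝ (e a) (f i)) (fun a => inner ℝ (e a) (f j))
    (fun a => inner ℝ (e a) (f k)) (fun a => inner ℝ (e a) (f l))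
  have h2 : ∀ i, vc e (fun a => inner ℝ (e a) (f i)) = f i := fun i => by
    unfold vc
    exact e.sum_repr' (f i)
  rw [h2, h2, h2, h2] at h1
  unfold cpt
  rw [← h1]
  unfold Hc rq mf
  push_cast
  refine Finset.sum_congr rfl fun a _ => Finset.sum_congr rfl fun b _ =>
    Finset.sum_congr rfl fun c _ => Finset.sum_congr rfl fun d _ => ?_
  simp only [Matrix.of_apply, Complex.conj_ofReal]

theorem mf_det (e : OrthonormalBasis (Fin 3 × Bool) ℝ V) (f : Basis I6 ℝ V) :
    (mf e f).det ≠ 0 := by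
  have h1 : mf e f = (e.toBasis.toMatrix f).map (fun r : ℝ => (r : ℂ)) := by
    ext a i
    simp only [mf, Matrix.of_apply, Matrix.map_apply, Basis.toMatrix_apply,
      OrthonormalBasis.coe_toBasis_repr_apply, OrthonormalBasis.repr_apply_apply]
  have h2 : ((e.toBasis.toMatrix f).map (fun r : ℝ => (r : ℂ))).det =
      (((e.toBasis.toMatrix f).det : ℝ) : ℂ) := by
    have := RingHom.map_det Complex.ofRealHom (e.toBasis.toMatrix f)
    exact this.symm
  rw [h1, h2]
  have h3 := (e.toBasis.isUnit_det f).ne_zero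
  rw [Basis.det_apply] at h3
  exact fun h => h3 (Complex.ofReal_eq_zero.mp h)

/-- positive semidefiniteness of a real symmetric matrix, over the complex numbers -/
theorem psd_real (Q : I6 → I6 → ℝ) (hs : ∀ s t, Q t s = Q s t)
    (h : ∀ x : I6 → ℝ, 0 ≤ ∑ s, ∑ t, Q s t * (x s * x t)) :
    (Matrix.of fun s t => ((Q s t : ℝ) : ℂ) : Matrix I6 I6 ℂ).PosSemidef := by
  have hh : (Matrix.of fun s t => ((Q s t : ℝ) : ℂ) : Matrix I6 I6 ℂ).IsHermitian := by
    ext s t
    simp only [Matrix.conjTranspose_apply, Matrix.of_apply, Complex.star_def, Complex.conj_ofReal,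
      hs]
  refine Matrix.PosSemidef.of_dotProduct_mulVec_nonneg hh fun x => ?_
  have him := hh.im_star_dotProduct_mulVec_self x
  rw [Complex.le_def]
  refine ⟨?_, him.symm⟩
  have e1 : (star x ⬝ᵥ ((Matrix.of fun s t => ((Q s t : ℝ) : ℂ) : Matrix I6 I6 ℂ).mulVec x)).re =
      (∑ s, ∑ t, Q s t * ((x s).re * (x t).re)) + ∑ s, ∑ t, Q s t * ((x s).im * (x t).im) := by
    simp only [dotProduct, Matrix.mulVec, Pi.star_apply, Finset.mul_sum, Complex.re_sum,
      ← Finset.sum_add_distrib, Matrix.of_apply]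
    refine Finset.sum_congr rfl fun s _ => Finset.sum_congr rfl fun t _ => ?_
    simp [Complex.mul_re, Complex.mul_im]
    ring
  rw [e1, Complex.zero_re]
  exact add_nonneg (h fun s => (x s).re) (h fun s => (x s).im)

/-- every vector of `ℝ³` is a vector product -/
theorem cross_surj (x : Fin 3 → ℝ) : ∃ u v : Fin 3 → ℝ,
    ∀ s, x s = u (s + 1) * v (s + 2) - u (s + 2) * v (s + 1) := by
  by_cases h0 : x 0 = 0
  · by_cases h1 : x 1 = 0
    · by_cases h2 : x 2 = 0
      · refine ⟨0, 0, fun s => ?_⟩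
        fin_cases s <;> simp [h0, h1, h2]
      · refine ⟨![1, 0, -x 0 / x 2], ![0, x 2, -x 1], fun s => ?_⟩
        fin_cases s <;> simp [h0, h1]
    · refine ⟨![0, -x 2 / x 1, 1], ![x 1, -x 0, 0], fun s => ?_⟩
      fin_cases s
      · simp
      · simp
      · simp
        field_simp
  · refine ⟨![-x 1 / x 0, 1, 0], ![-x 2, 0, x 0], fun s => ?_⟩
    fin_cases s
    · simp
    · simp
      field_simp
    · simp

/-- an alternating form on `ℝ³` -/
theorem alt3 (A : Fin 3 → Fin 3 → ℝ) (hA : ∀ i j, A j i = - A i j) (u v : Fin 3 → ℝ) :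
    ∑ i, ∑ j, u i * (v j * A i j) =
      ∑ s : Fin 3, (u (s + 1) * v (s + 2) - u (s + 2) * v (s + 1)) * A (s + 1) (s + 2) := by
  have h0 := hA 0 0
  have h1 := hA 1 1
  have h2 := hA 2 2
  have h01 := hA 0 1
  have h02 := hA 0 2
  have h12 := hA 1 2
  have e0 : A 0 0 = 0 := by linarith
  have e1 : A 1 1 = 0 := by linarith
  have e2 : A 2 2 = 0 := by linarith
  simp only [Fin.sum_univ_three, Fin.isValue, show (0 : Fin 3) + 1 = 1 from rfl,
    show (0 : Fin 3) + 2 = 2 from rfl, show (1 : Fin 3) + 1 = 2 from rfl,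
    show (1 : Fin 3) + 2 = 0 from rfl, show (2 : Fin 3) + 1 = 0 from rfl,
    show (2 : Fin 3) + 2 = 1 from rfl]
  rw [e0, e1, e2, h01, h02, h12]
  ring

/-- the quadratic form of a curvature tensor on the bivectors of three vectors -/
theorem three_dec {S : V → V → V → V → ℝ} (hS : AlgCurv S) (g : Fin 3 → V) (u v : Fin 3 → ℝ) :
    S (vc g u) (vc g v) (vc g u) (vc g v) = ∑ s : Fin 3, ∑ t : Fin 3,
      S (g (s + 1)) (g (s + 2)) (g (t + 1)) (g (t + 2)) *
        ((u (s + 1) * v (s + 2) - u (s + 2) * v (s + 1)) *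
          (u (t + 1) * v (t + 2) - u (t + 2) * v (t + 1))) := by
  have h1 : ∀ z w : V, S (vc g u) (vc g v) z w =
      ∑ s : Fin 3, (u (s + 1) * v (s + 2) - u (s + 2) * v (s + 1)) *
        S (g (s + 1)) (g (s + 2)) z w := by
    intro z w
    rw [l1 hS, ← alt3 (fun i j => S (g i) (g j) z w) (fun i j => hS.anti _ _ _ _)]
    refine Finset.sum_congr rfl fun i _ => ?_
    rw [l2 hS, Finset.mul_sum]
  have h2 : ∀ z w : V, S z w (vc g u) (vc g v) =
      ∑ s : Fin 3, (u (s + 1) * v (s + 2) - u (s + 2) * v (s + 1)) *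
        S z w (g (s + 1)) (g (s + 2)) := by
    intro z w
    rw [hS.pair (vc g u) (vc g v) z w, h1]
    exact Finset.sum_congr rfl fun s _ => by rw [hS.pair]
  rw [h1]
  refine Finset.sum_congr rfl fun s _ => ?_
  rw [h2, Finset.mul_sum]
  exact Finset.sum_congr rfl fun t _ => by ring

theorem three_nonneg {S : V → V → V → V → ℝ} (hS : AlgCurv S) (hs : ∀ a b, S a b a b ≤ 0)
    (g : Fin 3 → V) (x : Fin 3 → ℝ) :
    0 ≤ ∑ s : Fin 3, ∑ t : Fin 3,
      -S (g (s + 1)) (g (s + 2)) (g (t + 1)) (g (t + 2)) * (x s * x t) := by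
  obtain ⟨u, v, hx⟩ := cross_surj x
  have h1 := hs (vc g u) (vc g v)
  rw [three_dec hS] at h1
  simp only [← hx] at h1
  simp only [neg_mul, Finset.sum_neg_distrib]
  linarith

/-- the value on four vectors in two families -/
theorem rq_two {S : V → V → V → V → ℝ} (hS : AlgCurv S) (g h : Fin 3 → V)
    (a b c d : Fin 3 → ℝ) :
    Pool.Agent.TH828.J3423.rq (fun i j k l => -S (g i) (h j) (g k) (h l)) a b c d =
      -S (vc g a) (vc h b) (vc g c) (vc h d) := by
  simp only [l1 hS g a, l2 hS h b, l3 hS g c, l4 hS h d, Finset.mul_sum]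
  unfold Pool.Agent.TH828.J3423.rq
  simp only [← Finset.sum_neg_distrib]
  refine Finset.sum_congr rfl fun i _ => Finset.sum_congr rfl fun j _ =>
    Finset.sum_congr rfl fun k _ => Finset.sum_congr rfl fun l _ => by ring

/-- complex values of the mixed block -/
theorem bb_value {S : V → V → V → V → ℝ} (hS : AlgCurv S) (f : I6 → V) (x : Z2) :
    ∃ a a' b b' : Fin 3 → ℝ, qS (bb (cpt S f)) (T1 x) =
      -S (vc (fun i => f (i, false)) a) (vc (fun i => f (i, true)) b)
        (vc (fun i => f (i, false)) a) (vc (fun i => f (i, true)) b) +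
      -S (vc (fun i => f (i, false)) a') (vc (fun i => f (i, true)) b')
        (vc (fun i => f (i, false)) a') (vc (fun i => f (i, true)) b') +
      -S (vc (fun i => f (i, false)) a) (vc (fun i => f (i, true)) b')
        (vc (fun i => f (i, false)) a) (vc (fun i => f (i, true)) b') +
      -S (vc (fun i => f (i, false)) a') (vc (fun i => f (i, true)) b)
        (vc (fun i => f (i, false)) a') (vc (fun i => f (i, true)) b) -
      2 * -S (vc (fun i => f (i, false)) a) (vc (fun i => f (i, true)) b)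
        (vc (fun i => f (i, false)) a') (vc (fun i => f (i, true)) b') +
      2 * -S (vc (fun i => f (i, false)) a) (vc (fun i => f (i, true)) b')
        (vc (fun i => f (i, false)) a') (vc (fun i => f (i, true)) b) := by
  refine ⟨fun i => (x.1 i).re, fun i => (x.1 i).im, fun i => (x.2 i).re, fun i => (x.2 i).im, ?_⟩
  have h1 := Pool.Agent.TH828.J3423.re_qf
    (fun i j k l => -S (f (i, false)) (f (j, true)) (f (k, false)) (f (l, true)))
    (fun i j k l => by rw [hS.pair]) x.1 x.2
  simp only [rq_two hS (fun i => f (i, false)) (fun i => f (i, true))] at h1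
  rw [← h1]
  unfold qS Sf qf T1 bb cpt
  congr 1
  refine Finset.sum_congr rfl fun i _ => Finset.sum_congr rfl fun j _ =>
    Finset.sum_congr rfl fun k _ => Finset.sum_congr rfl fun l _ => ?_
  rw [map_mul]
  ring

/-- a basis adapted to two complementary subspaces -/
theorem adapt (E F : Submodule ℝ V) (hE : finrank ℝ E = 3) (hF : finrank ℝ F = 3)
    (hEF : IsCompl E F) : ∃ f : Basis I6 ℝ V, (∀ i, f (i, false) ∈ E) ∧ ∀ i, f (i, true) ∈ F := by
  have : FiniteDimensional ℝ E := FiniteDimensional.of_finrank_pos (by omega)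
  have : FiniteDimensional ℝ F := FiniteDimensional.of_finrank_pos (by omega)
  let bE := Module.finBasisOfFinrankEq ℝ E hE
  let bF := Module.finBasisOfFinrankEq ℝ F hF
  let g : (Fin 3 ⊕ Fin 3) ≃ I6 :=
    ⟨fun s => s.elim (fun i => (i, false)) (fun i => (i, true)),
      fun p => if p.2 then Sum.inr p.1 else Sum.inl p.1, fun s => by cases s <;> rfl,
      fun p => by obtain ⟨i, b⟩ := p; cases b <;> rfl⟩
  refine ⟨((bE.prod bF).map (Submodule.prodEquivOfIsCompl E F hEF)).reindex g, fun i => ?_,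
    fun i => ?_⟩
  · rw [Basis.reindex_apply]
    have : g.symm (i, false) = Sum.inl i := rfl
    rw [this]
    simp
  · rw [Basis.reindex_apply]
    have : g.symm (i, true) = Sum.inr i := rfl
    rw [this]
    simp

theorem vc_mem {I : Type} [Fintype I] (E : Submodule ℝ V) (g : I → V) (hg : ∀ i, g i ∈ E)
    (a : I → ℝ) : vc g a ∈ E :=
  E.sum_mem fun i _ => E.smul_mem _ (hg i)

/-- **Dimension six.** -/
theorem split_six (e : OrthonormalBasis (Fin 3 × Bool) ℝ V) {S : V → V → V → V → ℝ}
    (hS : AlgCurv S) (hs : ∀ a b, S a b a b ≤ 0) (E F : Submodule ℝ V) (hE : finrank ℝ E = 3)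
    (hF : finrank ℝ F = 3) (hEF : IsCompl E F)
    (h1 : ∀ x ∈ E, ∀ x' ∈ E, ∀ y ∈ F, ∀ z, S x x' y z = 0)
    (h2 : ∀ y ∈ F, ∀ y' ∈ F, ∀ x ∈ E, ∀ z, S y y' x z = 0) : 0 ≤ - gbc e S := by
  obtain ⟨f, hfE, hfF⟩ := adapt E F hE hF hEF
  have h34 : ∀ x y z w, S x y w z = - S x y z w := fun x y z w => by
    rw [← hS.pair x y w z, hS.anti z w, hS.pair]
  refine six_core e hS (mf e f) (mf_det e f) ?_ ?_ ?_
  · rw [Hc_mf e hS]
    intro i j k l hij hkl
    unfold cpt
    obtain ⟨i, a⟩ := i
    obtain ⟨j, b⟩ := j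
    obtain ⟨k, c⟩ := k
    obtain ⟨l, d⟩ := l
    simp only at hij hkl
    subst hij
    have : S (f (i, a)) (f (j, a)) (f (k, c)) (f (l, d)) = 0 := by
      cases a
      · cases c
        · have hd : d = true := by
            cases d
            · exact absurd rfl hkl
            · rfl
          subst hd
          rw [h34, h1 _ (hfE i) _ (hfE j) _ (hfF l), neg_zero]
        · exact h1 _ (hfE i) _ (hfE j) _ (hfF k) _
      · cases c
        · exact h2 _ (hfF i) _ (hfF j) _ (hfE k) _
        · have hd : d = false := by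
            cases d
            · rfl
            · exact absurd rfl hkl
          subst hd
          rw [h34, h2 _ (hfF i) _ (hfF j) _ (hfE l), neg_zero]
    rw [this]
    simp
  · rw [Hc_mf e hS]
    have h := psd_real (fun s t => -S (f (s.1 + 1, s.2)) (f (s.1 + 2, s.2)) (f (t.1 + 1, t.2))
      (f (t.1 + 2, t.2))) (fun s t => by rw [hS.pair]) (fun x => ?_)
    · exact h
    · rw [Fintype.sum_prod_type_right, Fintype.sum_bool]
      simp only [Fintype.sum_prod_type_right, Fintype.sum_bool]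
      have c1 : ∀ s t : Fin 3, S (f (s + 1, true)) (f (s + 2, true)) (f (t + 1, false))
          (f (t + 2, false)) = 0 := fun s t => h2 _ (hfF _) _ (hfF _) _ (hfE _) _
      have c2 : ∀ s t : Fin 3, S (f (s + 1, false)) (f (s + 2, false)) (f (t + 1, true))
          (f (t + 2, true)) = 0 := fun s t => h1 _ (hfE _) _ (hfE _) _ (hfF _) _
      simp only [c1, c2, neg_zero, zero_mul, Finset.sum_const_zero, add_zero, zero_add]
      exact add_nonneg (three_nonneg hS hs (fun i => f (i, true)) (fun i => x (i, true)))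
        (three_nonneg hS hs (fun i => f (i, false)) (fun i => x (i, false)))
  · rw [Hc_mf e hS]
    intro x
    obtain ⟨a, a', b, b', h⟩ := bb_value hS f x
    rw [h]
    have m1 := vc_mem E (fun i => f (i, false)) hfE a
    have m1' := vc_mem E (fun i => f (i, false)) hfE a'
    have m2 := vc_mem F (fun i => f (i, true)) hfF b
    have m2' := vc_mem F (fun i => f (i, true)) hfF b'
    generalize vc (fun i => f (i, false)) a = X at m1
    generalize vc (fun i => f (i, false)) a' = X' at m1'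
    generalize vc (fun i => f (i, true)) b = Y at m2
    generalize vc (fun i => f (i, true)) b' = Y' at m2'
    have k1 := hs X Y
    have k2 := hs X' Y'
    have k3 := hs X Y'
    have k4 := hs X' Y
    have k5 := hS.bianchi X Y X' Y'
    have k6 : S X' X Y Y' = 0 := h1 _ m1' _ m1 _ m2 _
    have k7 : S Y X' X Y' = - S X' Y X Y' := hS.anti _ _ _ _
    have k8 : S X' Y X Y' = S X Y' X' Y := hS.pair _ _ _ _
    linarith

end geo

end Pool.Agent.H31HS
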