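import Pool.Agent.H31HS.Geo
import Pool.Agent.H31HS.Core2

/-!
# Dimension six: curvature operators preserving the second exterior power of a three-plane
-/

set_option autoImplicit false

namespace Pool.Agent.H31HS

open Finset Module Pool.Agent.TH598.GV Pool.Agent.R735.HA Pool.Agent.W666.GB
open Pool.Agent.Y519.HB (sqDec six_super sq_curv sum_curv)
open Pool.Agent.W669.HD (addT unitT LivesOn)
open scoped ComplexConjugate ComplexOrder

section geo

variable {V : Type} [NormedAddCommGroup V] [InnerProductSpace ℝ V]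

/-- a curvature tensor on the span of three vectors -/
theorem three_dec' {S : V → V → V → V → ℝ} (hS : AlgCurv S) (g : Fin 3 → V)
    (u v u' v' : Fin 3 → ℝ) :
    S (vc g u) (vc g v) (vc g u') (vc g v') = ∑ s : Fin 3, ∑ t : Fin 3,
      S (g (s + 1)) (g (s + 2)) (g (t + 1)) (g (t + 2)) *
        ((u (s + 1) * v (s + 2) - u (s + 2) * v (s + 1)) *
          (u' (t + 1) * v' (t + 2) - u' (t + 2) * v' (t + 1))) := by
  have h1 : ∀ (u v : Fin 3 → ℝ) (z w : V), S (vc g u) (vc g v) z w =
      ∑ s : Fin 3, (u (s + 1) * v (s + 2) - u (s + 2) * v (s + 1)) *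
        S (g (s + 1)) (g (s + 2)) z w := by
    intro u v z w
    rw [l1 hS, ← alt3 (fun i j => S (g i) (g j) z w) (fun i j => hS.anti _ _ _ _)]
    refine Finset.sum_congr rfl fun i _ => ?_
    rw [l2 hS, Finset.mul_sum]
  have h2 : ∀ (u v : Fin 3 → ℝ) (z w : V), S z w (vc g u) (vc g v) =
      ∑ s : Fin 3, (u (s + 1) * v (s + 2) - u (s + 2) * v (s + 1)) *
        S z w (g (s + 1)) (g (s + 2)) := by
    intro u v z w
    rw [hS.pair (vc g u) (vc g v) z w, h1]
    exact Finset.sum_congr rfl fun s _ => by rw [hS.pair]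
  rw [h1]
  refine Finset.sum_congr rfl fun s _ => ?_
  rw [h2, Finset.mul_sum]
  exact Finset.sum_congr rfl fun t _ => by ring

theorem riesz {J : Type} [Fintype J] (e : OrthonormalBasis J ℝ V) (φ : V →ₗ[ℝ] ℝ) :
    ∃ w : V, ∀ a, inner ℝ w a = φ a := by
  refine ⟨∑ i, φ (e i) • e i, fun a => ?_⟩
  rw [sum_inner]
  have h : φ a = φ (∑ i, inner ℝ (e i) a • e i) := by rw [e.sum_repr' a]
  rw [h, map_sum]
  refine Finset.sum_congr rfl fun i _ => ?_
  rw [real_inner_smul_left, map_smul, smul_eq_mul, mul_comm]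

/-- real quadratic forms -/
theorem psd_real3 (Q : Fin 3 → Fin 3 → ℝ) (hs : ∀ s t, Q t s = Q s t)
    (h : ∀ x : Fin 3 → ℝ, 0 ≤ ∑ s, ∑ t, Q s t * (x s * x t)) :
    ∃ (n : ℕ) (q : Fin n → Fin 3 → ℝ), ∀ s t, Q s t = ∑ k, q k s * q k t := by
  have hh : (Matrix.of Q).IsHermitian := by
    ext s t
    simp only [Matrix.conjTranspose_apply, Matrix.of_apply, star_trivial, hs]
  have hp : (Matrix.of Q).PosSemidef := by
    refine Matrix.PosSemidef.of_dotProduct_mulVec_nonneg hh fun x => ?_
    have e1 : star x ⬝ᵥ ((Matrix.of Q).mulVec x) = ∑ s, ∑ t, Q s t * (x s * x t) := by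
      simp only [dotProduct, Matrix.mulVec, Pi.star_apply, star_trivial, Finset.mul_sum,
        Matrix.of_apply]
      refine Finset.sum_congr rfl fun s _ => Finset.sum_congr rfl fun t _ => by ring
    rw [e1]
    exact h x
  obtain ⟨n, q, hq⟩ := Matrix.posSemidef_iff_eq_sum_vecMulVec.mp hp
  refine ⟨n, q, fun s t => ?_⟩
  have h1 := congrFun (congrFun hq s) t
  rw [Matrix.sum_apply] at h1
  exact h1

/-- A tensor of nonpositive sectional curvature pulled back from a three-dimensional space is minus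
a sum of squares of decomposable forms. -/
theorem three_squares {J : Type} [Fintype J] (e : OrthonormalBasis J ℝ V)
    {S : V → V → V → V → ℝ} (hS : AlgCurv S) (hs : ∀ a b, S a b a b ≤ 0) (g : Fin 3 → V)
    (φ : Fin 3 → V →ₗ[ℝ] ℝ) : ∃ (n : ℕ) (x y : Fin n → V), ∀ a b c d,
      S (vc g fun i => φ i a) (vc g fun i => φ i b) (vc g fun i => φ i c) (vc g fun i => φ i d) =
        - ∑ k, sqDec (x k) (y k) a b c d := by
  obtain ⟨n, q, hq⟩ := psd_real3 (fun s t => -S (g (s + 1)) (g (s + 2)) (g (t + 1)) (g (t + 2)))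
    (fun s t => by rw [hS.pair]) (fun x => three_nonneg hS hs g x)
  choose u v huv using fun k => cross_surj (q k)
  choose w hw using fun i => riesz e (φ i)
  refine ⟨n, fun k => ∑ i, u k i • w i, fun k => ∑ i, v k i • w i, fun a b c d => ?_⟩
  have hin : ∀ (u : Fin 3 → ℝ) (a : V), inner ℝ (∑ i, u i • w i) a = ∑ i, u i * φ i a := by
    intro u a
    rw [sum_inner]
    refine Finset.sum_congr rfl fun i _ => ?_
    rw [real_inner_smul_left, hw]
  rw [three_dec' hS]
  have h1 : ∀ s t : Fin 3, S (g (s + 1)) (g (s + 2)) (g (t + 1)) (g (t + 2)) =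
      - ∑ k, q k s * q k t := fun s t => by
    rw [← hq, neg_neg]
  simp only [h1]
  have h2 : ∀ k, sqDec (∑ i, u k i • w i) (∑ i, v k i • w i) a b c d =
      ∑ s : Fin 3, ∑ t : Fin 3, (q k s * q k t) *
        ((φ (s + 1) a * φ (s + 2) b - φ (s + 2) a * φ (s + 1) b) *
          (φ (t + 1) c * φ (t + 2) d - φ (t + 2) c * φ (t + 1) d)) := by
    intro k
    simp only [sqDec, hin]
    have h3 : ∀ s, q k s = u k (s + 1) * v k (s + 2) - u k (s + 2) * v k (s + 1) := huv k
    have h4 : ∀ a b : V, (∑ i, u k i * φ i a) * (∑ i, v k i * φ i b) -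
        (∑ i, u k i * φ i b) * (∑ i, v k i * φ i a) =
        ∑ s : Fin 3, q k s * (φ (s + 1) a * φ (s + 2) b - φ (s + 2) a * φ (s + 1) b) := by
      intro a b
      simp only [h3, Fin.sum_univ_three, Fin.isValue, show (0 : Fin 3) + 1 = 1 from rfl,
        show (0 : Fin 3) + 2 = 2 from rfl, show (1 : Fin 3) + 1 = 2 from rfl,
        show (1 : Fin 3) + 2 = 0 from rfl, show (2 : Fin 3) + 1 = 0 from rfl,
        show (2 : Fin 3) + 2 = 1 from rfl]
      ring
    rw [h4, h4, Finset.sum_mul_sum]
    refine Finset.sum_congr rfl fun s _ => Finset.sum_congr rfl fun t _ => by ring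
  simp only [h2]
  symm
  rw [Finset.sum_comm, ← Finset.sum_neg_distrib]
  refine Finset.sum_congr rfl fun s _ => ?_
  rw [Finset.sum_comm, ← Finset.sum_neg_distrib]
  refine Finset.sum_congr rfl fun t _ => ?_
  rw [neg_mul, Finset.sum_mul]

theorem roundGB_zero {m : ℕ} (hm : m ≠ 0) : roundGB m 0 = 0 := by
  unfold roundGB
  rw [zero_pow hm, mul_zero]

/-- the sum of a tensor and of a multiple of another one -/
theorem add_curv' {S T : V → V → V → V → ℝ} (hS : AlgCurv S) (hT : AlgCurv T) (r : ℝ) :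
    AlgCurv (fun a b c d => S a b c d + r * T a b c d) where
  add x x' y z w := by rw [hS.add, hT.add]; ring
  smul t x y z w := by rw [hS.smul, hT.smul]; ring
  anti x y z w := by rw [hS.anti, hT.anti]; ring
  pair x y z w := by rw [hS.pair, hT.pair]
  bianchi x y z w := by
    have h1 := hS.bianchi x y z w
    have h2 := hT.bianchi x y z w
    linear_combination h1 + r * h2

/-- the Gauss–Bonnet–Chern integrand in an arbitrary basis -/
theorem gbc_basis (e : OrthonormalBasis (Fin 3 × Bool) ℝ V) (f : Basis I6 ℝ V) :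
    ∃ κ : ℝ, 0 < κ ∧ ∀ S : V → V → V → V → ℝ, AlgCurv S →
      - gbc e S = κ * (GG (cpt S f)).re := by
  have hπ := Real.pi_pos
  have h3 : 0 < Complex.normSq (mf e f).det := Complex.normSq_pos.mpr (mf_det e f)
  refine ⟨1 / ((8 * Real.pi) ^ 3 * (Nat.factorial 3 : ℝ)) / Complex.normSq (mf e f).det,
    by positivity, fun S hS => ?_⟩
  rw [gbc_GG, ← Hc_mf e hS f, GG_trans]
  have h2 : (mf e f).det * conj (mf e f).det = ((Complex.normSq (mf e f).det : ℝ) : ℂ) :=
    Complex.mul_conj _
  rw [h2, Complex.re_ofReal_mul]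
  field_simp

/-- **Dimension six, one-sided.**  Here `S y y' x z = 0` for all `y, y' ∈ F`, `x ∈ E`, `z ∈ V`:
the curvature operator maps the second exterior power of `F` to itself. -/
theorem one_sided (e : OrthonormalBasis (Fin 3 × Bool) ℝ V) {S : V → V → V → V → ℝ}
    (hS : AlgCurv S) (hs : ∀ a b, S a b a b ≤ 0) (E F : Submodule ℝ V) (hE : finrank ℝ E = 3)
    (hF : finrank ℝ F = 3) (hEF : IsCompl E F)
    (h2 : ∀ y ∈ F, ∀ y' ∈ F, ∀ x ∈ E, ∀ z, S y y' x z = 0) : 0 ≤ - gbc e S := by
  obtain ⟨f, hfE, hfF⟩ := adapt E F hE hF hEF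
  have h34 : ∀ x y z w, S x y w z = - S x y z w := fun x y z w => by
    rw [← hS.pair x y w z, hS.anti z w, hS.pair]
  -- the projection to `F`
  obtain ⟨φ, hφ⟩ : ∃ φ : Fin 3 → V →ₗ[ℝ] ℝ, φ = fun i => f.coord (i, true) := ⟨_, rfl⟩
  obtain ⟨g, hg⟩ : ∃ g : Fin 3 → V, g = fun i => f (i, true) := ⟨_, rfl⟩
  obtain ⟨T, hT⟩ : ∃ T : V → V → V → V → ℝ, T = fun a b c d =>
    S (vc g fun i => φ i a) (vc g fun i => φ i b) (vc g fun i => φ i c) (vc g fun i => φ i d) :=
    ⟨_, rfl⟩
  obtain ⟨n, x, y, hsq⟩ := three_squares e hS hs g φ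
  have hTs : ∀ a b c d, T a b c d = - (∑ k, sqDec (x k) (y k) a b c d) - 0 * unitT a b c d := by
    intro a b c d
    rw [hT]
    simp only [hsq]
    ring
  have hTc : AlgCurv T := by
    have h : T = fun a b c d => (fun a b c d : V => (0 : ℝ)) a b c d +
        (-1 : ℝ) * (∑ k, sqDec (x k) (y k) a b c d) := by
      funext a b c d
      rw [hTs]
      ring
    rw [h]
    refine add_curv' ⟨?_, ?_, ?_, ?_, ?_⟩ (sum_curv fun k => sq_curv (x k) (y k)) (-1) <;>
      intros <;> simp
  obtain ⟨k1, k2⟩ := six_super e le_rfl hS hs hTs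
  rw [roundGB_zero (by norm_num)] at k2
  obtain ⟨κ, hκ, hGG⟩ := gbc_basis e f
  -- the affine dependence
  have hadd : AlgCurv (addT S T) := by
    have h := add_curv' hS hTc 1
    have e1 : (fun a b c d => S a b c d + 1 * T a b c d) = addT S T := by
      funext a b c d
      simp only [addT]
      ring
    rwa [e1] at h
  have hpF : ∀ i : Fin 3, vc g (fun k => φ k (f (i, false))) = 0 := by
    intro i
    unfold vc
    refine Finset.sum_eq_zero fun k _ => ?_
    rw [hφ]
    simp
  have hpT : ∀ i : Fin 3, vc g (fun k => φ k (f (i, true))) = f (i, true) := by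
    intro i
    unfold vc
    rw [Finset.sum_eq_single i]
    · rw [hφ, hg]
      simp
    · intro k _ hk
      rw [hφ]
      have : f.coord (k, true) (f (i, true)) = 0 := by
        rw [Basis.coord_apply, Basis.repr_self, Finsupp.single_apply, if_neg]
        intro h
        exact hk (by simpa using (congrArg Prod.fst h).symm)
      simp only [this, zero_smul]
    · intro h
      exact absurd (Finset.mem_univ _) h
  have hz : ∀ b c d, S 0 b c d = 0 := fun b c d => by
    have := hS.smul 0 0 b c d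
    simpa using this
  have hz2 : ∀ b c d, S b 0 c d = 0 := fun b c d => by
    rw [hS.anti 0 b c d, hz, neg_zero]
  have hz3 : ∀ b c d, S b c 0 d = 0 := fun b c d => by
    rw [hS.pair 0 d b c, hz]
  have hz4 : ∀ b c d, S b c d 0 = 0 := fun b c d => by
    rw [h34, hz3, neg_zero]
  have hK : ∀ i j k l, cpt T f i j k l ≠ 0 → i.2 = true ∧ j.2 = true := by
    intro i j k l h
    obtain ⟨i, a⟩ := i
    obtain ⟨j, b⟩ := j
    cases a
    · exfalso
      apply h
      unfold cpt
      rw [hT]
      simp only [hpF, hz]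
      simp
    · cases b
      · exfalso
        apply h
        unfold cpt
        rw [hT]
        simp only [hpF, hz2]
        simp
      · exact ⟨rfl, rfl⟩
  have haff := GG_affine (cpt S f) (cpt T f) hK
  have e1 : (fun i j k l => cpt S f i j k l + cpt T f i j k l) = cpt (addT S T) f := by
    funext i j k l
    unfold cpt addT
    push_cast
    ring
  rw [e1] at haff
  -- the tensor without the part on `F`
  obtain ⟨H', hH'⟩ : ∃ H' : T4, H' = fun i j k l => cpt S f i j k l - cpt T f i j k l := ⟨_, rfl⟩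
  rw [← hH'] at haff
  have hHS' : HS H' := by
    have h := cpt_HS (add_curv' hS hTc (-1)) f
    have e2 : cpt (fun a b c d => S a b c d + (-1) * T a b c d) f = H' := by
      rw [hH']
      funext i j k l
      unfold cpt
      push_cast
      ring
    rwa [e2] at h
  have h0 : ∀ i j k l, i.2 = true → j.2 = true → H' i j k l = 0 := by
    intro i j k l hi hj
    obtain ⟨i, a⟩ := i
    obtain ⟨j, b⟩ := j
    simp only at hi hj
    subst hi
    subst hj
    have h3 : S (f (i, true)) (f (j, true)) (f k) (f l) = T (f (i, true)) (f (j, true)) (f k) (f l) := by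
      rw [hT]
      simp only [hpT]
      obtain ⟨k, c⟩ := k
      obtain ⟨l, d⟩ := l
      cases c
      · rw [hpF, hz3]
        exact h2 _ (hfF i) _ (hfF j) _ (hfE k) _
      · rw [hpT]
        cases d
        · rw [hpF, hz4, h34, h2 _ (hfF i) _ (hfF j) _ (hfE l), neg_zero]
        · rw [hpT]
    rw [hH']
    unfold cpt
    simp only [h3]
    ring
  have hnull := GG_null hHS' h0
  have hbb : bb H' = bb (cpt S f) := by
    funext c d c' d'
    unfold bb
    rw [hH']
    have h4 : cpt T f (c, false) (d, true) (c', false) (d', true) = 0 := by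
      by_contra h
      have := (hK _ _ _ _ h).1
      simp at this
    simp only [h4, sub_zero]
  have hPhi : 0 ≤ (GG H').re := by
    rw [hnull]
    have h5 : 0 ≤ H864R3.Phi6 (Bm H') := by
      refine Phi_nonneg hHS' fun x => ?_
      rw [hbb]
      obtain ⟨a, a', b, b', h⟩ := bb_value hS f x
      rw [h]
      have m1 := vc_mem E (fun i => f (i, false)) hfE a
      have m1' := vc_mem E (fun i => f (i, false)) hfE a'
      have m2 := vc_mem F (fun i => f (i, true)) hfF b
      have m2' := vc_mem F (fun i => f (i, true)) hfF b'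
      generalize vc (fun i => f (i, false)) a = X at m1
      generalize vc (fun i => f (i, false)) a' = X' at m1'
      generalize vc (fun i => f (i, true)) b = Y at m2
      generalize vc (fun i => f (i, true)) b' = Y' at m2'
      have k1 := hs X Y
      have k2 := hs X' Y'
      have k3 := hs X Y'
      have k4 := hs X' Y
      have k5 := hS.bianchi Y Y' X X'
      have k6 : S Y Y' X X' = 0 := h2 _ m2 _ m2' _ m1 _
      have k7 : S Y' X Y X' = S X Y' X' Y := by
        rw [hS.anti X Y', h34 X Y' X' Y, neg_neg]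
      have k8 : S X Y Y' X' = - S X Y X' Y' := h34 _ _ _ _
      linarith
    have h6 := (Complex.le_def.mp h5).1
    have h7 : (384 * H864R3.Phi6 (Bm H')).re = 384 * (H864R3.Phi6 (Bm H')).re := by
      simp [Complex.mul_re]
    rw [h7]
    simp only [Complex.zero_re] at h6
    positivity
  have r1 := hGG S hS
  have r2 := hGG (addT S T) hadd
  have r3 := congrArg Complex.re haff
  rw [Complex.add_re] at r3
  have r4 : (2 * GG (cpt S f)).re = 2 * (GG (cpt S f)).re := by simp [Complex.mul_re]
  rw [r4] at r3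
  have r5 : κ * (GG (cpt S f)).re ≤ κ * (GG (cpt (addT S T) f)).re := by
    rw [← r1, ← r2]
    linarith
  have r6 : (GG (cpt S f)).re ≤ (GG (cpt (addT S T) f)).re := le_of_mul_le_mul_left r5 hκ
  rw [r1]
  have : 0 ≤ (GG (cpt S f)).re := by linarith
  positivity

end geo

end Pool.Agent.H31HS
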