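import Pool.Agent.H31HS.Geo2

/-!
# Blocks
-/

set_option autoImplicit false

namespace Pool.Agent.H31HS

open Finset Module Pool.Agent.W666.GB
open Pool.Agent.Y519.HB (sqDec HopfOn twoFive_one two_five TwoFive restrict_curv)
open Pool.Agent.W669.HD (addT unitT LivesOn roundGB_nonneg)

variable {V : Type} [NormedAddCommGroup V] [InnerProductSpace ℝ V]

/-- dimensions at most four -/
theorem hopf_small {S : V → V → V → V → ℝ} (hS : AlgCurv S) (hs : ∀ a b, S a b a b ≤ 0)
    {k : ℕ} (hk : k < 3) (E : Submodule ℝ V) (ε : OrthonormalBasis (Fin k × Bool) ℝ E) :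
    0 ≤ (-1) ^ k * gbc ε (fun x y z w : E => S x y z w) := by
  have hfin : FiniteDimensional ℝ E := Module.Finite.of_basis ε.toBasis
  have hE : Module.finrank ℝ (⊤ : Submodule ℝ E) ≤ 5 := by
    rw [finrank_top, Module.finrank_eq_card_basis ε.toBasis]
    simp only [Fintype.card_prod, Fintype.card_fin, Fintype.card_bool]
    omega
  have h2 : TwoFive 0 (fun x y z w : E => S x y z w) := by
    refine twoFive_one (restrict_curv hS E) hE ?_ (fun x y => hs x y)
    intro a ha y z w
    rw [Submodule.top_orthogonal_eq_bot, Submodule.mem_bot] at ha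
    rw [ha]
    have := hS.smul 0 0 (y : V) (z : V) (w : V)
    simpa using this
  exact (roundGB_nonneg le_rfl).trans (two_five ε le_rfl h2)

theorem finrank_ob {k : ℕ} (e : OrthonormalBasis (Fin k × Bool) ℝ V) : finrank ℝ V = 2 * k := by
  rw [Module.finrank_eq_card_basis e.toBasis]
  simp only [Fintype.card_prod, Fintype.card_fin, Fintype.card_bool]
  omega

/-- a curvature tensor vanishing on the bivectors of a subspace of more than half the dimension -/
theorem gbc_null {k : ℕ} (e : OrthonormalBasis (Fin k × Bool) ℝ V) {S : V → V → V → V → ℝ}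
    (hS : AlgCurv S) (F : Submodule ℝ V) (hF : k < finrank ℝ F)
    (h : ∀ y ∈ F, ∀ y' ∈ F, ∀ z w, S y y' z w = 0) : gbc e S = 0 := by
  classical
  have hfin : FiniteDimensional ℝ V := Module.Finite.of_basis e.toBasis
  have hV := finrank_ob e
  have hFV := Submodule.finrank_le F
  obtain ⟨A, hA⟩ : ∃ A : Finset (Fin k × Bool), A.card = k + 1 := by
    obtain ⟨A, -, hA⟩ := Finset.exists_subset_card_eq (s := (univ : Finset (Fin k × Bool)))
      (n := k + 1) (by
        rw [card_univ, Fintype.card_prod, Fintype.card_fin, Fintype.card_bool]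
        omega)
    exact ⟨A, hA⟩
  obtain ⟨f, hf⟩ := Pool.Agent.TH598.GV.adapted e F A (by omega)
  rw [Pool.Agent.W688.HD.bas k V e f S hS]
  unfold gbc
  have hsum : ∑ σ : Equiv.Perm (Fin k × Bool), ∑ τ : Equiv.Perm (Fin k × Bool),
      ((Equiv.Perm.sign σ : ℤ) : ℝ) * ((Equiv.Perm.sign τ : ℤ) : ℝ) *
        ∏ b : Fin k, S (f (σ (b, false))) (f (σ (b, true))) (f (τ (b, false)))
          (f (τ (b, true))) = 0 := by
    refine Finset.sum_eq_zero fun σ _ => Finset.sum_eq_zero fun τ _ => ?_
    have hc : (univ : Finset (Fin k)).card < (A.map σ.symm.toEmbedding).card := by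
      rw [card_map, hA, card_univ, Fintype.card_fin]
      omega
    obtain ⟨p, hp, q, hq, hpq, he⟩ := Finset.exists_ne_map_eq_of_card_lt_of_maps_to hc
      (f := Prod.fst) (fun a _ => Finset.mem_coe.2 (mem_univ _))
    obtain ⟨p, s⟩ := p
    obtain ⟨q, t⟩ := q
    simp only at he
    subst he
    have hst : s ≠ t := fun h => hpq (by rw [h])
    rw [Finset.mem_map_equiv, Equiv.symm_symm] at hp hq
    have h1 : σ (p, false) ∈ A ∧ σ (p, true) ∈ A := by
      cases s <;> cases t
      · exact absurd rfl hst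
      · exact ⟨hp, hq⟩
      · exact ⟨hq, hp⟩
      · exact absurd rfl hst
    rw [Finset.prod_eq_zero (Finset.mem_univ p) (h _ (hf _ h1.1) _ (hf _ h1.2) _ _), mul_zero]
  rw [hsum, mul_zero]

theorem finrank_comap {E F : Submodule ℝ V} [FiniteDimensional ℝ V] :
    finrank ℝ (F.comap E.subtype) = finrank ℝ (F ⊓ E : Submodule ℝ V) := by
  have h : (F.comap E.subtype).map E.subtype = F ⊓ E := by
    rw [Submodule.map_comap_eq, Submodule.range_subtype, inf_comm]
  rw [← h]
  exact (LinearEquiv.finrank_eq (Submodule.equivMapOfInjective E.subtype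
    (Submodule.injective_subtype E) (F.comap E.subtype)))

theorem exists_sub (F : Submodule ℝ V) {n : ℕ} (h : n ≤ finrank ℝ F) :
    ∃ G : Submodule ℝ V, G ≤ F ∧ finrank ℝ G = n := by
  obtain ⟨f, hf⟩ := exists_linearIndependent_of_le_finrank h
  refine ⟨Submodule.span ℝ (Set.range fun i => (f i : V)), ?_, ?_⟩
  · rw [Submodule.span_le]
    rintro _ ⟨i, rfl⟩
    exact (f i).2
  · have h1 : LinearIndependent ℝ (fun i => (f i : V)) :=
      hf.map' F.subtype (Submodule.ker_subtype F)
    rw [finrank_span_eq_card h1, Fintype.card_fin]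

/-- **Blocks with a null subspace of codimension at most three.** -/
theorem hopf_null [FiniteDimensional ℝ V] {S : V → V → V → V → ℝ} (hS : AlgCurv S)
    (hs : ∀ a b, S a b a b ≤ 0) {U F : Submodule ℝ V} (hFU : F ≤ U)
    (hd : finrank ℝ U ≤ finrank ℝ F + 3) (h : ∀ y ∈ F, ∀ y' ∈ F, ∀ z w, S y y' z w = 0) :
    HopfOn U S := by
  intro k E hE ε
  rcases Nat.lt_or_ge k 3 with hk | hk
  · exact hopf_small hS hs hk E ε
  have hE2 := finrank_ob ε
  have h1 : finrank ℝ (F.comap E.subtype) = finrank ℝ (F ⊓ E : Submodule ℝ V) := finrank_comap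
  have h2 := Submodule.finrank_sup_add_finrank_inf_eq F E
  have h3 : finrank ℝ (F ⊔ E : Submodule ℝ V) ≤ finrank ℝ U :=
    Submodule.finrank_mono (sup_le hFU hE)
  have hz : ∀ y ∈ F.comap E.subtype, ∀ y' ∈ F.comap E.subtype, ∀ z w : E,
      S (y : V) (y' : V) (z : V) (w : V) = 0 := fun y hy y' hy' z w => h _ hy _ hy' _ _
  rcases Nat.eq_or_lt_of_le hk with hk3 | hk4
  · subst hk3
    have h4 : 3 ≤ finrank ℝ (F.comap E.subtype) := by omega
    obtain ⟨G, hGF, hG⟩ := exists_sub (F.comap E.subtype) h4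
    obtain ⟨E', hE'⟩ := Submodule.exists_isCompl G
    have h5 := Submodule.finrank_add_eq_of_isCompl hE'
    have h6 := one_sided ε (restrict_curv hS E) (fun a b => hs a b) E' G (by omega) hG hE'.symm
      (fun y hy y' hy' x _ z => hz y (hGF hy) y' (hGF hy') x z)
    linarith
  · have h4 : k < finrank ℝ (F.comap E.subtype) := by omega
    rw [gbc_null ε (restrict_curv hS E) (F.comap E.subtype) h4 hz, mul_zero]

/-- **Blocks of dimension six.** -/
theorem hopf_six [FiniteDimensional ℝ V] {S : V → V → V → V → ℝ} (hS : AlgCurv S)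
    (hs : ∀ a b, S a b a b ≤ 0) {U E F : Submodule ℝ V} (hU : E ⊔ F = U)
    (hE : finrank ℝ E ≤ 3) (hF : finrank ℝ F ≤ 3)
    (h : ∀ y ∈ F, ∀ y' ∈ F, ∀ x ∈ E, ∀ z, S y y' x z = 0) : HopfOn U S := by
  intro k G hG ε
  rcases Nat.lt_or_ge k 3 with hk | hk
  · exact hopf_small hS hs hk G ε
  have hG2 := finrank_ob ε
  have h1 := Submodule.finrank_sup_add_finrank_inf_eq E F
  rw [hU] at h1
  have h2 := Submodule.finrank_mono hG
  obtain rfl : k = 3 := by omega
  have hGU : G = U := Submodule.eq_of_le_of_finrank_eq hG (by omega)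
  subst hGU
  have hEG : E ≤ G := by rw [← hU]; exact le_sup_left
  have hFG : F ≤ G := by rw [← hU]; exact le_sup_right
  have e1 : finrank ℝ (E.comap G.subtype) = finrank ℝ (E ⊓ G : Submodule ℝ V) := finrank_comap
  have e2 : finrank ℝ (F.comap G.subtype) = finrank ℝ (F ⊓ G : Submodule ℝ V) := finrank_comap
  rw [inf_eq_left.2 hEG] at e1
  rw [inf_eq_left.2 hFG] at e2
  have hinf : E ⊓ F = ⊥ := Submodule.finrank_eq_zero.1 (by omega)
  have hC : IsCompl (E.comap G.subtype) (F.comap G.subtype) := by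
    constructor
    · rw [disjoint_iff, ← Submodule.comap_inf, hinf, ← LinearMap.ker, Submodule.ker_subtype]
    · rw [codisjoint_iff]
      apply Submodule.eq_top_of_finrank_eq
      have h3 := Submodule.finrank_sup_add_finrank_inf_eq (E.comap G.subtype) (F.comap G.subtype)
      rw [← Submodule.comap_inf, hinf, ← LinearMap.ker, Submodule.ker_subtype, finrank_bot] at h3
      omega
  have h6 := one_sided ε (restrict_curv hS G) (fun a b => hs a b) (E.comap G.subtype)
    (F.comap G.subtype) (by omega) (by omega) hC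
    (fun y hy y' hy' x hx z => h _ hy _ hy' _ hx _)
  linarith

end Pool.Agent.H31HS
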