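import Pool.Agent.H31HS.Geo3

/-!
# Sectional curvature of the blocks of a tensor of multiply warped type
-/

set_option autoImplicit false

namespace Pool.Agent.H31HS

open Finset Module Pool.Agent.W666.GB
open Pool.Agent.Y519.HB Pool.Agent.W669.HD

variable {V : Type} [NormedAddCommGroup V] [InnerProductSpace ℝ V]

theorem warp_sec [FiniteDimensional ℝ V] {δ : ℝ} {R : V → V → V → V → ℝ} {r : ℕ}
    {U : Fin r → Submodule ℝ V} {S : Fin r → V → V → V → V → ℝ}
    {h k : Fin r → Fin r → V → V → ℝ} (hO : OrthSum U) (hS : ∀ i, AlgCurv (S i))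
    (hL : ∀ i, LivesOn (U i) (S i)) (hh : ∀ i j, SymForm (U i) (h i j))
    (hk : ∀ i j, SymForm (U j) (k i j))
    (hR : ∀ a b c d, R a b c d + δ * unitT a b c d = (∑ i, S i a b c d) +
      ∑ i, ∑ j, if i < j then kn (h i j) (k i j) a b c d else 0)
    (hK : ∀ a b, R a b a b + δ * unitT a b a b ≤ 0) : ∀ i a b, S i a b a b ≤ 0 := by
  classical
  have perp : ∀ i j, i ≠ j → ∀ x ∈ U i, x ∈ (U j)ᗮ := by
    intro i j hij x hx
    rw [Submodule.mem_orthogonal]
    intro u hu
    exact hO.1 j i (Ne.symm hij) u hu x hx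
  -- vanishing
  have v1 : ∀ i j, i ≠ j → ∀ x ∈ U i, ∀ b c d, S j x b c d = 0 := fun i j hij x hx b c d =>
    hL j x (perp i j hij x hx) b c d
  have vh : ∀ i j l, i ≠ j → ∀ x ∈ U i, ∀ y, h j l x y = 0 := fun i j l hij x hx y =>
    (hh j l).lives x (perp i j hij x hx) y
  have vk : ∀ i j l, i ≠ l → ∀ x ∈ U i, ∀ y, k j l x y = 0 := fun i j l hij x hx y =>
    (hk j l).lives x (perp i l hij x hx) y
  intro i a b
  have ha := (U i).starProjection_apply_mem a
  have hb := (U i).starProjection_apply_mem b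
  rw [lives_eq (hS i) (hL i) ((U i).sub_starProjection_mem_orthogonal a)
    ((U i).sub_starProjection_mem_orthogonal b) ((U i).sub_starProjection_mem_orthogonal a)
    ((U i).sub_starProjection_mem_orthogonal b)]
  generalize (U i).starProjection a = a' at ha
  generalize (U i).starProjection b = b' at hb
  have h1 := hR a' b' a' b'
  have h2 := hK a' b'
  rw [h1, Finset.sum_eq_single i (fun j _ hj => v1 i j (Ne.symm hj) a' ha _ _ _)
    (fun hi => absurd (mem_univ _) hi)] at h2
  have h3 : (∑ p, ∑ q, if p < q then kn (h p q) (k p q) a' b' a' b' else 0) = 0 := by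
    refine sum_eq_zero fun p _ => sum_eq_zero fun q _ => ?_
    split_ifs with hpq
    · by_cases hp : i = p
      · have hq : i ≠ q := by rw [hp]; exact ne_of_lt hpq
        simp only [kn, vk i p q hq _ ha, vk i p q hq _ hb]
        ring
      · simp only [kn, vh i p q hp _ ha, vh i p q hp _ hb]
        ring
    · rfl
  rw [h3, add_zero] at h2
  exact h2

end Pool.Agent.H31HS
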