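import Pool.Agent.H31HS.Core

/-!
# Bases adapted to a complex structure
-/

set_option autoImplicit false

namespace Pool.Agent.H31HS

open Finset Module

theorem J_basis {V : Type} [AddCommGroup V] [Module ℝ V] (hV : finrank ℝ V = 6) (J : V →ₗ[ℝ] V)
    (hJ : ∀ x, J (J x) = -x) : ∃ f : Basis I6 ℝ V, ∀ i, f (i, true) = J (f (i, false)) := by
  have hJ2 : J * J = -1 := by
    ext x
    simp [hJ]
  let φ : ℂ →ₐ[ℝ] Module.End ℝ V := Complex.lift ⟨J, hJ2⟩
  let _ : Module ℂ V := Module.compHom V φ.toRingHom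
  have hsm : ∀ (z : ℂ) (v : V), z • v = φ z v := fun _ _ => rfl
  have hI : ∀ v : V, Complex.I • v = J v := by
    intro v
    rw [hsm]
    simp [φ]
  have hr : ∀ (r : ℝ) (v : V), (r : ℂ) • v = r • v := by
    intro r v
    rw [hsm]
    simp [φ]
  have : IsScalarTower ℝ ℂ V := by
    constructor
    intro r z v
    rw [← hr r (z • v), ← mul_smul, Complex.real_smul]
  have hf := finrank_mul_finrank ℝ ℂ V
  rw [hV, Complex.finrank_real_complex] at hf
  have h3 : finrank ℂ V = 3 := by omega
  have : FiniteDimensional ℂ V := FiniteDimensional.of_finrank_pos (by omega)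
  let b := Module.finBasisOfFinrankEq ℂ V h3
  let c := Complex.basisOneI.smulTower b
  let g : (Fin 2 × Fin 3) ≃ I6 := (Equiv.prodComm _ _).trans
    (Equiv.prodCongr (Equiv.refl _) finTwoEquiv)
  refine ⟨c.reindex g, fun i => ?_⟩
  have e1 : g.symm (i, true) = (1, i) := by
    simp [g, finTwoEquiv]
  have e0 : g.symm (i, false) = (0, i) := by
    simp [g, finTwoEquiv]
  rw [Basis.reindex_apply, Basis.reindex_apply, e1, e0]
  simp only [c, Basis.smulTower_apply]
  simp [hI]

end Pool.Agent.H31HS
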