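import Pool.Agent.H31HS.Geo3
import Pool.Agent.H31HS.Jb

/-!
# Curvature tensors invariant under a reflection or a complex structure
-/

set_option autoImplicit false

namespace Pool.Agent.H31HS

open Finset Module Pool.Agent.TH598.GV Pool.Agent.R735.HA Pool.Agent.W666.GB
open scoped ComplexConjugate ComplexOrder

section geo

variable {V : Type} [NormedAddCommGroup V] [InnerProductSpace ℝ V]

/-- a curvature tensor on the spans of two triples of vectors -/
theorem three_dec2 {S : V → V → V → V → ℝ} (hS : AlgCurv S) (g h : Fin 3 → V)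
    (u v u' v' : Fin 3 → ℝ) :
    S (vc g u) (vc g v) (vc h u') (vc h v') = ∑ s : Fin 3, ∑ t : Fin 3,
      S (g (s + 1)) (g (s + 2)) (h (t + 1)) (h (t + 2)) *
        ((u (s + 1) * v (s + 2) - u (s + 2) * v (s + 1)) *
          (u' (t + 1) * v' (t + 2) - u' (t + 2) * v' (t + 1))) := by
  have h1 : ∀ (g : Fin 3 → V) (u v : Fin 3 → ℝ) (z w : V), S (vc g u) (vc g v) z w =
      ∑ s : Fin 3, (u (s + 1) * v (s + 2) - u (s + 2) * v (s + 1)) *
        S (g (s + 1)) (g (s + 2)) z w := by
    intro g u v z w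
    rw [l1 hS, ← alt3 (fun i j => S (g i) (g j) z w) (fun i j => hS.anti _ _ _ _)]
    refine Finset.sum_congr rfl fun i _ => ?_
    rw [l2 hS, Finset.mul_sum]
  have h2 : ∀ (u v : Fin 3 → ℝ) (z w : V), S z w (vc h u) (vc h v) =
      ∑ s : Fin 3, (u (s + 1) * v (s + 2) - u (s + 2) * v (s + 1)) *
        S z w (h (s + 1)) (h (s + 2)) := by
    intro u v z w
    rw [hS.pair (vc h u) (vc h v) z w, h1]
    exact Finset.sum_congr rfl fun s _ => by rw [hS.pair]
  rw [h1]
  refine Finset.sum_congr rfl fun s _ => ?_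
  rw [h2, Finset.mul_sum]
  exact Finset.sum_congr rfl fun t _ => by ring

/-- the coordinate theorem in a basis and a complex change of basis -/
theorem six_basis (e : OrthonormalBasis (Fin 3 × Bool) ℝ V) {S : V → V → V → V → ℝ}
    (hS : AlgCurv S) (f : Basis I6 ℝ V) (C : Matrix I6 I6 ℂ) (hC : C.det ≠ 0)
    (he : Even (Hc C (cpt S f))) (hM : (MM (Hc C (cpt S f))).PosSemidef)
    (hX : ∀ x : Z2, 0 ≤ qS (bb (Hc C (cpt S f))) (T1 x)) : 0 ≤ - gbc e S := by
  obtain ⟨κ, hκ, h⟩ := gbc_basis e f
  have h1 := core (Hc_HS C (cpt_HS hS f)) he hM hX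
  rw [GG_trans] at h1
  have h2 : C.det * conj C.det = ((Complex.normSq C.det : ℝ) : ℂ) := Complex.mul_conj _
  rw [h2, Complex.re_ofReal_mul] at h1
  have h3 : 0 < Complex.normSq C.det := Complex.normSq_pos.mpr hC
  have h4 : 0 ≤ (GG (cpt S f)).re := nonneg_of_mul_nonneg_right h1 h3
  rw [h S hS]
  positivity

/-- **Reflections.** -/
theorem refl_six (e : OrthonormalBasis (Fin 3 × Bool) ℝ V) {S : V → V → V → V → ℝ}
    (hS : AlgCurv S) (E F : Submodule ℝ V) (hE : finrank ℝ E = 3)
    (hF : finrank ℝ F = 3) (hEF : IsCompl E F)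
    (h1 : ∀ x ∈ E, ∀ x' ∈ E, ∀ x'' ∈ E, ∀ y ∈ F, S x x' x'' y = 0)
    (h2 : ∀ y ∈ F, ∀ y' ∈ F, ∀ y'' ∈ F, ∀ x ∈ E, S y y' y'' x = 0)
    (ha : ∀ x ∈ E, ∀ x' ∈ E, ∀ y ∈ F, ∀ y' ∈ F,
      S x x' x x' + 2 * S x x' y y' + S y y' y y' ≤ 0)
    (hb : ∀ x ∈ E, ∀ x' ∈ E, ∀ y ∈ F, ∀ y' ∈ F, S x y x y + S x' y' x' y' + S x y' x y' +
      S x' y x' y - 2 * S x y x' y' + 2 * S x y' x' y ≤ 0) : 0 ≤ - gbc e S := by
  obtain ⟨f, hfE, hfF⟩ := adapt E F hE hF hEF
  obtain ⟨κ, hκ, hGG⟩ := gbc_basis e f
  have h34 : ∀ x y z w, S x y w z = - S x y z w := fun x y z w => by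
    rw [← hS.pair x y w z, hS.anti z w, hS.pair]
  rw [hGG S hS]
  refine mul_nonneg hκ.le (core (cpt_HS hS f) ?_ ?_ ?_)
  · intro i j k l hij hkl
    unfold cpt
    obtain ⟨i, a⟩ := i
    obtain ⟨j, b⟩ := j
    obtain ⟨k, c⟩ := k
    obtain ⟨l, d⟩ := l
    simp only at hij hkl
    subst hij
    have : S (f (i, a)) (f (j, a)) (f (k, c)) (f (l, d)) = 0 := by
      cases a
      · cases c
        · have hd : d = true := by
            cases d
            · exact absurd rfl hkl
            · rfl
          subst hd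
          exact h1 _ (hfE i) _ (hfE j) _ (hfE k) _ (hfF l)
        · have hd : d = false := by
            cases d
            · rfl
            · exact absurd rfl hkl
          subst hd
          rw [h34, h1 _ (hfE i) _ (hfE j) _ (hfE l) _ (hfF k), neg_zero]
      · cases c
        · have hd : d = true := by
            cases d
            · exact absurd rfl hkl
            · rfl
          subst hd
          rw [h34, h2 _ (hfF i) _ (hfF j) _ (hfF l) _ (hfE k), neg_zero]
        · have hd : d = false := by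
            cases d
            · rfl
            · exact absurd rfl hkl
          subst hd
          exact h2 _ (hfF i) _ (hfF j) _ (hfF k) _ (hfE l)
    rw [this]
    simp
  · have h := psd_real (fun s t => -S (f (s.1 + 1, s.2)) (f (s.1 + 2, s.2)) (f (t.1 + 1, t.2))
      (f (t.1 + 2, t.2))) (fun s t => by rw [hS.pair]) (fun x => ?_)
    · exact h
    · obtain ⟨u, v, hx⟩ := cross_surj (fun i => x (i, false))
      obtain ⟨u', v', hx'⟩ := cross_surj (fun i => x (i, true))
      rw [Fintype.sum_prod_type_right, Fintype.sum_bool]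
      simp only [Fintype.sum_prod_type_right, Fintype.sum_bool]
      have k1 := three_dec2 hS (fun i => f (i, false)) (fun i => f (i, false)) u v u v
      have k2 := three_dec2 hS (fun i => f (i, false)) (fun i => f (i, true)) u v u' v'
      have k3 := three_dec2 hS (fun i => f (i, true)) (fun i => f (i, false)) u' v' u v
      have k4 := three_dec2 hS (fun i => f (i, true)) (fun i => f (i, true)) u' v' u' v'
      simp only [← hx, ← hx'] at k1 k2 k3 k4
      have k5 := ha _ (vc_mem E (fun i => f (i, false)) hfE u) _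
        (vc_mem E (fun i => f (i, false)) hfE v) _ (vc_mem F (fun i => f (i, true)) hfF u') _
        (vc_mem F (fun i => f (i, true)) hfF v')
      have k6 : S (vc (fun i => f (i, true)) u') (vc (fun i => f (i, true)) v')
          (vc (fun i => f (i, false)) u) (vc (fun i => f (i, false)) v) =
          S (vc (fun i => f (i, false)) u) (vc (fun i => f (i, false)) v)
            (vc (fun i => f (i, true)) u') (vc (fun i => f (i, true)) v') := hS.pair _ _ _ _
      simp only [Finset.sum_add_distrib, neg_mul, Finset.sum_neg_distrib]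
      linarith
  · intro x
    obtain ⟨a, a', b, b', h⟩ := bb_value hS f x
    rw [h]
    have m1 := vc_mem E (fun i => f (i, false)) hfE a
    have m1' := vc_mem E (fun i => f (i, false)) hfE a'
    have m2 := vc_mem F (fun i => f (i, true)) hfF b
    have m2' := vc_mem F (fun i => f (i, true)) hfF b'
    have k := hb _ m1 _ m1' _ m2 _ m2'
    linarith

end geo

end Pool.Agent.H31HS
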