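import Pool.Agent.H31HS.Geo5

/-!
# Curvature tensors invariant under a complex structure
-/

set_option autoImplicit false

namespace Pool.Agent.H31HS

open Finset Module Pool.Agent.TH598.GV Pool.Agent.R735.HA Pool.Agent.W666.GB
open Pool.Agent.TH828.J3423 (QQ QQ_quad re_herm re_qf)
open scoped ComplexConjugate ComplexOrder

/-- the vectors `x - i J x`, `x + i J x` in the basis `x, J x` -/
noncomputable def CJ : Matrix I6 I6 ℂ := Matrix.of fun p q =>
  if p.1 = q.1 then (if p.2 then (if q.2 then Complex.I else -Complex.I) else 1) else 0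

/-- the inverse of `CJ` -/
noncomputable def DJ : Matrix I6 I6 ℂ := Matrix.of fun p q =>
  if p.1 = q.1 then (if q.2 then (if p.2 then -Complex.I / 2 else Complex.I / 2) else 1 / 2) else 0

theorem CJ_DJ : CJ * DJ = 1 := by
  ext ⟨i, s⟩ ⟨j, t⟩
  rw [Matrix.mul_apply, Fintype.sum_prod_type]
  rw [Finset.sum_eq_single i]
  · rw [Fintype.sum_bool]
    by_cases hij : i = j
    · subst hij
      cases s <;> cases t
      · simp only [CJ, DJ, Matrix.of_apply, if_true, Matrix.one_apply_eq]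
        simp only [Bool.false_eq_true, if_false]
        norm_num
      · simp only [CJ, DJ, Matrix.of_apply, if_true]
        simp only [Bool.false_eq_true, if_false]
        rw [Matrix.one_apply_ne (by simp)]
        ring
      · simp [CJ, DJ]
      · simp only [CJ, DJ, Matrix.of_apply, if_true, Matrix.one_apply_eq]
        simp only [Bool.false_eq_true, if_false]
        linear_combination (-1 : ℂ) * Complex.I_sq
    · cases s <;> cases t <;> simp [CJ, DJ, hij]
  · intro b _ hb
    simp [CJ, Ne.symm hb]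
  · intro h
    exact absurd (Finset.mem_univ _) h

theorem CJ_det : CJ.det ≠ 0 := by
  intro h
  have h1 := congrArg Matrix.det CJ_DJ
  rw [Matrix.det_mul, h, zero_mul, Matrix.det_one] at h1
  exact zero_ne_one h1

theorem CJ_conj (a : I6) (c : Fin 3) : conj (CJ a (c, true)) = CJ a (c, false) := by
  obtain ⟨i, s⟩ := a
  cases s
  · by_cases h : i = c <;> simp [CJ, h]
  · by_cases h : i = c <;> simp [CJ, h]

/-- opposite index -/
def op (p : I6) : I6 := (p.1, !p.2)

/-- `op` as a permutation -/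
def opE : Equiv.Perm I6 := ⟨op, op, fun p => by simp [op], fun p => by simp [op]⟩

/-- the sign of `J` -/
noncomputable def sJ (p : I6) : ℂ := if p.2 then -1 else 1

/-- the eigenvalues -/
noncomputable def lJ (p : I6) : ℂ := if p.2 then Complex.I else -Complex.I

theorem CJ_op (p q : I6) : sJ p * CJ (op p) q = lJ q * CJ p q := by
  obtain ⟨i, s⟩ := p
  obtain ⟨j, t⟩ := q
  by_cases h : i = j
  · subst h
    cases s <;> cases t <;> simp [sJ, op, CJ, lJ]
  · simp [op, CJ, h]

theorem conj_sJ (p : I6) : conj (sJ p) = sJ p := by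
  unfold sJ
  split_ifs <;> simp

theorem Hc_op {H : T4} (hH : ∀ a b c d, H a b c d =
      sJ a * sJ b * (sJ c * sJ d) * H (op a) (op b) (op c) (op d)) (i j k l : I6) :
    Hc CJ H i j k l = lJ i * lJ j * (conj (lJ k) * conj (lJ l)) * Hc CJ H i j k l := by
  have e : ∀ F : I6 → ℂ, ∑ a, F a = ∑ a, F (op a) := fun F => (Equiv.sum_comp opE F).symm
  have hs : ∀ p, sJ p * sJ p = 1 := fun p => by
    unfold sJ
    split_ifs <;> simp
  have hc : ∀ p q, conj (sJ p) * conj (CJ (op p) q) = conj (lJ q) * conj (CJ p q) := fun p q => by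
    rw [← map_mul, ← map_mul, CJ_op]
  have h1 : Hc CJ H i j k l = ∑ a, ∑ b, ∑ c, ∑ d, H (op a) (op b) (op c) (op d) *
      (CJ (op a) i * CJ (op b) j * conj (CJ (op c) k) * conj (CJ (op d) l)) := by
    unfold Hc
    rw [e]
    refine Finset.sum_congr rfl fun a _ => ?_
    rw [e]
    refine Finset.sum_congr rfl fun b _ => ?_
    rw [e]
    refine Finset.sum_congr rfl fun c _ => ?_
    rw [e]
  conv_lhs => rw [h1]
  unfold Hc
  simp only [Finset.mul_sum]
  refine Finset.sum_congr rfl fun a _ => Finset.sum_congr rfl fun b _ =>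
    Finset.sum_congr rfl fun c _ => Finset.sum_congr rfl fun d _ => ?_
  have k1 := CJ_op a i
  have k2 := CJ_op b j
  have k3 := hc c k
  have k4 := hc d l
  rw [conj_sJ] at k3 k4
  have e2 : lJ i * lJ j * (conj (lJ k) * conj (lJ l)) * (H a b c d *
      (CJ a i * CJ b j * conj (CJ c k) * conj (CJ d l))) =
      H a b c d * ((lJ i * CJ a i) * (lJ j * CJ b j) * (conj (lJ k) * conj (CJ c k)) *
        (conj (lJ l) * conj (CJ d l))) := by ring
  rw [e2, ← k1, ← k2, ← k3, ← k4, hH a b c d]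
  have e3 : sJ a * sJ b * (sJ c * sJ d) * H (op a) (op b) (op c) (op d) *
      (sJ a * CJ (op a) i * (sJ b * CJ (op b) j) * (sJ c * conj (CJ (op c) k)) *
        (sJ d * conj (CJ (op d) l))) =
      (sJ a * sJ a) * (sJ b * sJ b) * (sJ c * sJ c) * (sJ d * sJ d) *
        (H (op a) (op b) (op c) (op d) *
          (CJ (op a) i * CJ (op b) j * conj (CJ (op c) k) * conj (CJ (op d) l))) := by ring
  rw [e3, hs, hs, hs, hs]
  ring

/-- `QQ` depends only on the alternating parts -/
theorem QQ_alt {I : Type} [Fintype I] (R : I → I → I → I → ℝ)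
    (alt : ∀ i j k l, R j i k l = - R i j k l) (pair : ∀ i j k l, R k l i j = R i j k l)
    (p p' : I → I → ℝ) (h : ∀ i j, p i j - p j i = p' i j - p' j i) :
    QQ R p p = QQ R p' p' := by
  have h1 : ∀ p q : I → I → ℝ, 2 * QQ R p q = ∑ a, ∑ b, ∑ c, ∑ d,
      R a b c d * ((p a b - p b a) * q c d) := by
    intro p q
    have e1 : QQ R p q = ∑ a, ∑ b, ∑ c, ∑ d, R a b c d * (-(p b a) * q c d) := by
      unfold QQ
      rw [Finset.sum_comm]
      refine Finset.sum_congr rfl fun a _ => Finset.sum_congr rfl fun b _ =>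
        Finset.sum_congr rfl fun c _ => Finset.sum_congr rfl fun d _ => ?_
      rw [alt]
      ring
    rw [two_mul]
    conv_lhs =>
      lhs
      unfold QQ
    rw [e1]
    simp only [← Finset.sum_add_distrib]
    refine Finset.sum_congr rfl fun a _ => Finset.sum_congr rfl fun b _ =>
        Finset.sum_congr rfl fun c _ => Finset.sum_congr rfl fun d _ => by ring
  have h2 : ∀ q : I → I → ℝ, QQ R p q = QQ R p' q := by
    intro q
    have h3 := h1 p q
    have h4 := h1 p' q
    simp only [h] at h3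
    linarith
  rw [h2, Pool.Agent.TH828.J3423.QQ_symm R pair, h2]

section geo

variable {V : Type} [NormedAddCommGroup V] [InnerProductSpace ℝ V]

/-- the combination of the vectors `x - i J x` with coefficients `u` -/
noncomputable def UU (u : Fin 3 → ℂ) (a : I6) : ℂ := ∑ c, u c * CJ a (c, false)

theorem UU_false (u : Fin 3 → ℂ) (i : Fin 3) : UU u (i, false) = u i := by
  unfold UU
  rw [Finset.sum_eq_single i]
  · simp [CJ]
  · intro b _ hb
    simp [CJ, Ne.symm hb]
  · intro h
    exact absurd (Finset.mem_univ _) h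

theorem UU_true (u : Fin 3 → ℂ) (i : Fin 3) : UU u (i, true) = -(Complex.I * u i) := by
  unfold UU
  rw [Finset.sum_eq_single i]
  · simp [CJ]
    ring
  · intro b _ hb
    simp [CJ, Ne.symm hb]
  · intro h
    exact absurd (Finset.mem_univ _) h

theorem vc_UU (f : I6 → V) (J : V →ₗ[ℝ] V) (hJ : ∀ x, J (J x) = -x)
    (hf : ∀ i, f (i, true) = J (f (i, false))) (u : Fin 3 → ℂ) :
    vc f (fun a => (UU u a).im) = - J (vc f fun a => (UU u a).re) := by
  unfold vc
  rw [Fintype.sum_prod_type, Fintype.sum_prod_type, map_sum, ← Finset.sum_neg_distrib]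
  refine Finset.sum_congr rfl fun i _ => ?_
  simp only [Fintype.sum_bool, map_add, map_smul, UU_false, UU_true, hf, hJ]
  simp only [Complex.neg_re, Complex.neg_im, Complex.I_mul_re, Complex.I_mul_im, neg_neg,
    neg_smul, smul_neg]
  abel

theorem cross_surjC (x : Fin 3 → ℂ) : ∃ u v : Fin 3 → ℂ,
    ∀ s, x s = u (s + 1) * v (s + 2) - u (s + 2) * v (s + 1) := by
  by_cases h0 : x 0 = 0
  · by_cases h1 : x 1 = 0
    · by_cases h2 : x 2 = 0
      · refine ⟨0, 0, fun s => ?_⟩
        fin_cases s <;> simp [h0, h1, h2]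
      · refine ⟨![1, 0, -x 0 / x 2], ![0, x 2, -x 1], fun s => ?_⟩
        fin_cases s <;> simp [h0, h1]
    · refine ⟨![0, -x 2 / x 1, 1], ![x 1, -x 0, 0], fun s => ?_⟩
      fin_cases s
      · simp
      · simp
      · simp
        field_simp
  · refine ⟨![-x 1 / x 0, 1, 0], ![-x 2, 0, x 0], fun s => ?_⟩
    fin_cases s
    · simp
    · simp
      field_simp
    · simp

/-- real components -/
def rc (S : V → V → V → V → ℝ) (f : I6 → V) : I6 → I6 → I6 → I6 → ℝ :=
  fun i j k l => -S (f i) (f j) (f k) (f l)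

theorem QQ_rc {S : V → V → V → V → ℝ} (hS : AlgCurv S) (f : I6 → V) (a b c d : I6 → ℝ) :
    QQ (rc S f) (fun i j => a i * b j) (fun i j => c i * d j) =
      -S (vc f a) (vc f b) (vc f c) (vc f d) := by
  rw [← Pool.Agent.TH828.J3423.rq_eq]
  exact rq_eq hS f a b c d

/-- positivity on real anti-invariant bivectors -/
theorem anti_nonneg {S : V → V → V → V → ℝ} (hS : AlgCurv S) (f : I6 → V) (J : V →ₗ[ℝ] V)
    (hJ : ∀ x, J (J x) = -x) (hf : ∀ i, f (i, true) = J (f (i, false)))
    (hinv : ∀ x y z w, S (J x) (J y) (J z) (J w) = S x y z w)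
    (ha : ∀ x y, S x y x y ≤ S x y (J x) (J y)) (y : I6 → ℂ) :
    0 ≤ QQ (rc S f)
      (fun a b => (∑ s : I6, y s * (CJ a (s.1 + 1, s.2) * CJ b (s.1 + 2, s.2))).re)
      (fun a b => (∑ s : I6, y s * (CJ a (s.1 + 1, s.2) * CJ b (s.1 + 2, s.2))).re) := by
  obtain ⟨u, v, huv⟩ := cross_surjC (fun c => y (c, false) + conj (y (c, true)))
  have h1 : ∀ a b, (∑ s : I6, y s * (CJ a (s.1 + 1, s.2) * CJ b (s.1 + 2, s.2))).re =
      (∑ c : Fin 3, (y (c, false) + conj (y (c, true))) *
        (CJ a (c + 1, false) * CJ b (c + 2, false))).re := by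
    intro a b
    rw [Fintype.sum_prod_type]
    simp only [Complex.re_sum]
    refine Finset.sum_congr rfl fun c _ => ?_
    rw [Fintype.sum_bool, add_mul, Complex.add_re, add_comm]
    congr 1
    rw [← Complex.conj_re, map_mul, map_mul, CJ_conj, CJ_conj]
  have h2 : ∀ a b, (∑ s : I6, y s * (CJ a (s.1 + 1, s.2) * CJ b (s.1 + 2, s.2))).re -
      (∑ s : I6, y s * (CJ b (s.1 + 1, s.2) * CJ a (s.1 + 2, s.2))).re =
      (UU u a * UU v b).re - (UU u b * UU v a).re := by
    intro a b
    rw [h1, h1, ← Complex.sub_re, ← Complex.sub_re]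
    congr 1
    have h3 : ∀ c, y (c, false) + conj (y (c, true)) =
        u (c + 1) * v (c + 2) - u (c + 2) * v (c + 1) := huv
    simp only [h3]
    unfold UU
    simp only [Fin.sum_univ_three, Fin.isValue, show (0 : Fin 3) + 1 = 1 from rfl,
      show (0 : Fin 3) + 2 = 2 from rfl, show (1 : Fin 3) + 1 = 2 from rfl,
      show (1 : Fin 3) + 2 = 0 from rfl, show (2 : Fin 3) + 1 = 0 from rfl,
      show (2 : Fin 3) + 2 = 1 from rfl]
    ring
  have halt : ∀ i j k l, rc S f j i k l = - rc S f i j k l := fun i j k l => by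
    unfold rc
    rw [hS.anti]
  have hpair : ∀ i j k l, rc S f k l i j = rc S f i j k l := fun i j k l => by
    unfold rc
    rw [hS.pair]
  rw [QQ_alt (rc S f) halt hpair _ (fun a b => (UU u a * UU v b).re) h2]
  have h4 : (fun a b => (UU u a * UU v b).re) =
      fun a b => (UU u a).re * (UU v b).re + (-1) * ((UU u a).im * (UU v b).im) := by
    funext a b
    rw [Complex.mul_re]
    ring
  rw [h4, QQ_quad (rc S f) hpair (-1) (fun a b => (UU u a).re * (UU v b).re)
    (fun a b => (UU u a).im * (UU v b).im), QQ_rc hS, QQ_rc hS, QQ_rc hS,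
    vc_UU f J hJ hf, vc_UU f J hJ hf]
  generalize vc f (fun a => (UU u a).re) = X
  generalize vc f (fun a => (UU v a).re) = Y
  have n1 : ∀ x y z w : V, S (-x) y z w = - S x y z w := fun x y z w => by
    have := hS.smul (-1) x y z w
    simpa using this
  have n2 : ∀ x y z w : V, S x (-y) z w = - S x y z w := fun x y z w => by
    rw [hS.anti (-y) x, n1, hS.anti y x]
  have n3 : ∀ x y z w : V, S x y (-z) w = - S x y z w := fun x y z w => by
    rw [hS.pair (-z) w x y, n1, hS.pair z w x y]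
  have n4 : ∀ x y z w : V, S x y z (-w) = - S x y z w := fun x y z w => by
    rw [hS.pair z (-w) x y, n2, hS.pair z w x y]
  rw [n3, n4, n1, n2, n3, n4, hinv]
  have := ha X Y
  linarith

theorem Sf_left {S : Type} [Fintype S] (H : T4) (y : S → ℂ) (p : S → I6 → I6 → ℂ)
    (q : I6 → I6 → ℂ) : Pool.Agent.R735.HA.Sf H (fun a b => ∑ s, y s * p s a b) q =
      ∑ s, y s * Pool.Agent.R735.HA.Sf H (p s) q := by
  unfold Pool.Agent.R735.HA.Sf
  have e : ∀ a b c d, H a b c d * ((∑ s, y s * p s a b) * conj (q c d)) =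
      ∑ s, y s * (H a b c d * (p s a b * conj (q c d))) := by
    intro a b c d
    rw [Finset.sum_mul, Finset.mul_sum]
    exact Finset.sum_congr rfl fun s _ => by ring
  simp only [e, Finset.mul_sum]
  have e3 : ∀ F : I6 → I6 → I6 → I6 → S → ℂ, ∑ a, ∑ b, ∑ c, ∑ d, ∑ s, F a b c d s =
      ∑ s, ∑ a, ∑ b, ∑ c, ∑ d, F a b c d s := by
    intro F
    have k1 : ∀ a b c, ∑ d, ∑ s, F a b c d s = ∑ s, ∑ d, F a b c d s := fun a b c =>
      Finset.sum_comm
    have k2 : ∀ a b, ∑ c, ∑ d, ∑ s, F a b c d s = ∑ s, ∑ c, ∑ d, F a b c d s := fun a b => by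
      simp only [k1]
      exact Finset.sum_comm
    have k3 : ∀ a, ∑ b, ∑ c, ∑ d, ∑ s, F a b c d s = ∑ s, ∑ b, ∑ c, ∑ d, F a b c d s :=
      fun a => by
      simp only [k2]
      exact Finset.sum_comm
    simp only [k3]
    exact Finset.sum_comm
  exact e3 _

theorem Sf_right {S : Type} [Fintype S] {H : T4} (hH : HS H) (y : S → ℂ)
    (q : S → I6 → I6 → ℂ) (p : I6 → I6 → ℂ) :
    Pool.Agent.R735.HA.Sf H p (fun a b => ∑ s, y s * q s a b) =
      ∑ s, conj (y s) * Pool.Agent.R735.HA.Sf H p (q s) := by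
  rw [Sf_herm hH (fun a b => ∑ s, y s * q s a b) p, Sf_left, map_sum]
  refine Finset.sum_congr rfl fun s _ => ?_
  rw [map_mul, ← Sf_herm hH]

theorem MM_Sf (H : T4) (s t : I6) : MM (Hc CJ H) s t = Pool.Agent.R735.HA.Sf H
    (fun a b => CJ a (s.1 + 1, s.2) * CJ b (s.1 + 2, s.2))
    (fun a b => CJ a (t.1 + 1, t.2) * CJ b (t.1 + 2, t.2)) := by
  unfold MM Hc Pool.Agent.R735.HA.Sf
  simp only [Matrix.of_apply]
  refine Finset.sum_congr rfl fun a _ => Finset.sum_congr rfl fun b _ =>
    Finset.sum_congr rfl fun c _ => Finset.sum_congr rfl fun d _ => ?_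
  rw [map_mul]
  ring

theorem bb_Sf (H : T4) (c d c' d' : Fin 3) : bb (Hc CJ H) c d c' d' = Pool.Agent.R735.HA.Sf H
    (fun a b => CJ a (c, false) * CJ b (d, true))
    (fun a b => CJ a (c', false) * CJ b (d', true)) := by
  unfold bb Hc Pool.Agent.R735.HA.Sf
  refine Finset.sum_congr rfl fun a _ => Finset.sum_congr rfl fun b _ =>
    Finset.sum_congr rfl fun c _ => Finset.sum_congr rfl fun d _ => ?_
  rw [map_mul]
  ring

theorem MM_herm {H : T4} (hH : HS H) : (MM H).IsHermitian := by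
  ext s t
  rw [Matrix.conjTranspose_apply]
  unfold MM
  simp only [Matrix.of_apply]
  rw [hH.herm (s.1 + 1, s.2) (s.1 + 2, s.2) (t.1 + 1, t.2) (t.1 + 2, t.2)]
  simp

theorem MM_J {S : V → V → V → V → ℝ} (hS : AlgCurv S) (f : I6 → V) (J : V →ₗ[ℝ] V)
    (hJ : ∀ x, J (J x) = -x) (hf : ∀ i, f (i, true) = J (f (i, false)))
    (hinv : ∀ x y z w, S (J x) (J y) (J z) (J w) = S x y z w)
    (ha : ∀ x y, S x y x y ≤ S x y (J x) (J y)) : (MM (Hc CJ (cpt S f))).PosSemidef := by
  have hH := cpt_HS hS f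
  have hh := MM_herm (Hc_HS CJ hH)
  refine Matrix.PosSemidef.of_dotProduct_mulVec_nonneg hh fun x => ?_
  have him := hh.im_star_dotProduct_mulVec_self x
  rw [Complex.le_def]
  refine ⟨?_, him.symm⟩
  have e1 : star x ⬝ᵥ ((MM (Hc CJ (cpt S f))).mulVec x) = Pool.Agent.R735.HA.Sf (cpt S f)
      (fun a b => ∑ s : I6, conj (x s) * (CJ a (s.1 + 1, s.2) * CJ b (s.1 + 2, s.2)))
      (fun a b => ∑ s : I6, conj (x s) * (CJ a (s.1 + 1, s.2) * CJ b (s.1 + 2, s.2))) := by
    rw [Sf_left (cpt S f) (fun s : I6 => conj (x s))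
      (fun s a b => CJ a (s.1 + 1, s.2) * CJ b (s.1 + 2, s.2))]
    simp only [dotProduct, Matrix.mulVec, Pi.star_apply]
    refine Finset.sum_congr rfl fun s _ => ?_
    rw [Sf_right hH (fun s : I6 => conj (x s))
      (fun s a b => CJ a (s.1 + 1, s.2) * CJ b (s.1 + 2, s.2))]
    congr 1
    refine Finset.sum_congr rfl fun t _ => ?_
    rw [MM_Sf, Complex.conj_conj]
    ring
  rw [e1, Complex.zero_re]
  have e2 := re_herm (rc S f)
    (fun a b => ∑ s : I6, conj (x s) * (CJ a (s.1 + 1, s.2) * CJ b (s.1 + 2, s.2)))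
  have e3 : Pool.Agent.R735.HA.Sf (cpt S f)
      (fun a b => ∑ s : I6, conj (x s) * (CJ a (s.1 + 1, s.2) * CJ b (s.1 + 2, s.2)))
      (fun a b => ∑ s : I6, conj (x s) * (CJ a (s.1 + 1, s.2) * CJ b (s.1 + 2, s.2))) =
      ∑ i, ∑ j, ∑ i', ∑ j', ((rc S f i j i' j' : ℝ) : ℂ) *
        ((fun a b => ∑ s : I6, conj (x s) * (CJ a (s.1 + 1, s.2) * CJ b (s.1 + 2, s.2))) i j *
          conj ((fun a b => ∑ s : I6, conj (x s) *
            (CJ a (s.1 + 1, s.2) * CJ b (s.1 + 2, s.2))) i' j')) := rfl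
  rw [e3, e2]
  refine add_nonneg (anti_nonneg hS f J hJ hf hinv ha fun s => conj (x s)) ?_
  have e4 : (fun a b => (∑ s : I6, conj (x s) *
      (CJ a (s.1 + 1, s.2) * CJ b (s.1 + 2, s.2))).im) =
      fun a b => (∑ s : I6, (-Complex.I * conj (x s)) *
        (CJ a (s.1 + 1, s.2) * CJ b (s.1 + 2, s.2))).re := by
    funext a b
    have : ∑ s : I6, (-Complex.I * conj (x s)) *
        (CJ a (s.1 + 1, s.2) * CJ b (s.1 + 2, s.2)) = -Complex.I * ∑ s : I6, conj (x s) *
        (CJ a (s.1 + 1, s.2) * CJ b (s.1 + 2, s.2)) := by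
      rw [Finset.mul_sum]
      exact Finset.sum_congr rfl fun s _ => by ring
    rw [this]
    simp [Complex.mul_re]
  rw [e4]
  exact anti_nonneg hS f J hJ hf hinv ha fun s => -Complex.I * conj (x s)

theorem CJ_true (a : I6) (c : Fin 3) : CJ a (c, true) = conj (CJ a (c, false)) := by
  rw [← CJ_conj, Complex.conj_conj]

theorem bb_J {S : V → V → V → V → ℝ} (hS : AlgCurv S) (f : I6 → V) (J : V →ₗ[ℝ] V)
    (hJ : ∀ x, J (J x) = -x) (hf : ∀ i, f (i, true) = J (f (i, false)))
    (hinv : ∀ x y z w, S (J x) (J y) (J z) (J w) = S x y z w)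
    (hb : ∀ x y, S x y x y + S x (J y) x (J y) + S x (J x) y (J y) ≤ 0) (x : Z2) :
    0 ≤ qS (bb (Hc CJ (cpt S f))) (T1 x) := by
  obtain ⟨ξ, η⟩ := x
  have hH := cpt_HS hS f
  have e0 : ∀ a b, UU ξ a * conj (UU (fun d => conj (η d)) b) = ∑ p : Fin 3 × Fin 3,
      (ξ p.1 * η p.2) * (CJ a (p.1, false) * CJ b (p.2, true)) := by
    intro a b
    unfold UU
    rw [Fintype.sum_prod_type, map_sum, Finset.sum_mul_sum]
    refine Finset.sum_congr rfl fun c _ => Finset.sum_congr rfl fun d _ => ?_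
    rw [CJ_true, map_mul, Complex.conj_conj]
    ring
  have e1 : Pool.Agent.H31HS.Sf (bb (Hc CJ (cpt S f))) (T1 (ξ, η)) (T1 (ξ, η)) =
      Pool.Agent.R735.HA.Sf (cpt S f)
        (fun a b => UU ξ a * conj (UU (fun d => conj (η d)) b))
        (fun a b => UU ξ a * conj (UU (fun d => conj (η d)) b)) := by
    simp only [e0]
    rw [Sf_left (cpt S f) (fun p : Fin 3 × Fin 3 => ξ p.1 * η p.2)
      (fun p a b => CJ a (p.1, false) * CJ b (p.2, true))]
    unfold Pool.Agent.H31HS.Sf T1
    rw [Fintype.sum_prod_type]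
    refine Finset.sum_congr rfl fun c _ => Finset.sum_congr rfl fun d _ => ?_
    rw [Sf_right hH (fun p : Fin 3 × Fin 3 => ξ p.1 * η p.2)
      (fun p a b => CJ a (p.1, false) * CJ b (p.2, true)), Fintype.sum_prod_type, Finset.mul_sum]
    refine Finset.sum_congr rfl fun c' _ => ?_
    rw [Finset.mul_sum]
    refine Finset.sum_congr rfl fun d' _ => ?_
    rw [bb_Sf]
    ring
  unfold qS
  rw [e1, Sf_qf]
  have e2 := re_qf (rc S f) (fun i j k l => by unfold rc; rw [hS.pair]) (UU ξ)
    (fun b => conj (UU (fun d => conj (η d)) b))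
  have e3 : qf (cpt S f) (UU ξ) (fun b => conj (UU (fun d => conj (η d)) b)) =
      qf (fun a b c d => ((rc S f a b c d : ℝ) : ℂ)) (UU ξ)
        (fun b => conj (UU (fun d => conj (η d)) b)) := rfl
  rw [e3, e2]
  have e4 : ∀ a b c d : I6 → ℝ, Pool.Agent.TH828.J3423.rq (rc S f) a b c d =
      -S (vc f a) (vc f b) (vc f c) (vc f d) := fun a b c d => rq_eq hS f a b c d
  have n1 : ∀ x y z w : V, S (-x) y z w = - S x y z w := fun x y z w => by
    have := hS.smul (-1) x y z w
    simpa using this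
  have n2 : ∀ x y z w : V, S x (-y) z w = - S x y z w := fun x y z w => by
    rw [hS.anti (-y) x, n1, hS.anti y x]
  have n3 : ∀ x y z w : V, S x y (-z) w = - S x y z w := fun x y z w => by
    rw [hS.pair (-z) w x y, n1, hS.pair z w x y]
  have n4 : ∀ x y z w : V, S x y z (-w) = - S x y z w := fun x y z w => by
    rw [hS.pair z (-w) x y, n2, hS.pair z w x y]
  have e5 : vc f (fun a => (conj (UU (fun d => conj (η d)) a)).im) =
      J (vc f (fun a => (conj (UU (fun d => conj (η d)) a)).re)) := by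
    have h1 := vc_UU f J hJ hf (fun d => conj (η d))
    simp only [Complex.conj_re, Complex.conj_im]
    have h2 : vc f (fun a => -(UU (fun d => conj (η d)) a).im) =
        - vc f (fun a => (UU (fun d => conj (η d)) a).im) := by
      unfold vc
      rw [← Finset.sum_neg_distrib]
      exact Finset.sum_congr rfl fun i _ => by rw [neg_smul]
    rw [h2, h1, neg_neg]
  simp only [e4]
  rw [e5, vc_UU f J hJ hf ξ]
  generalize vc f (fun a => (UU ξ a).re) = X
  generalize vc f (fun a => (conj (UU (fun d => conj (η d)) a)).re) = Y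
  simp only [n1, n2, n3, n4]
  have k1 := hinv X Y X Y
  have k2 := hb X Y
  have k3 := hS.bianchi X Y (J X) (J Y)
  have k4 : S (J X) Y (J X) Y = S X (J Y) X (J Y) := by
    have h := hinv X (J Y) X (J Y)
    rw [hJ, n2, n4, neg_neg] at h
    exact h
  have k5 : S Y (J X) X (J Y) = - S X (J Y) (J X) Y := by
    rw [hS.anti (J X) Y, hS.pair X (J Y) (J X) Y]
  have k6 : S (J X) X Y (J Y) = - S X (J X) Y (J Y) := hS.anti _ _ _ _
  linarith

theorem even_J {S : V → V → V → V → ℝ} (hS : AlgCurv S) (f : I6 → V) (J : V →ₗ[ℝ] V)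
    (hJ : ∀ x, J (J x) = -x) (hf : ∀ i, f (i, true) = J (f (i, false)))
    (hinv : ∀ x y z w, S (J x) (J y) (J z) (J w) = S x y z w) : Even (Hc CJ (cpt S f)) := by
  have hJf : ∀ p : I6, J (f p) = (if p.2 then (-1 : ℝ) else 1) • f (op p) := by
    intro p
    obtain ⟨i, s⟩ := p
    cases s
    · simp [op, hf]
    · simp [op, hf, hJ]
  have s3 : ∀ (t : ℝ) (x y z w : V), S x y (t • z) w = t * S x y z w := fun t x y z w => by
    rw [hS.pair (t • z) w x y, hS.smul, hS.pair z w x y]
  have s2 : ∀ (t : ℝ) (x y z w : V), S x (t • y) z w = t * S x y z w := fun t x y z w => by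
    rw [hS.anti (t • y) x, hS.smul, hS.anti y x]
    ring
  have s4 : ∀ (t : ℝ) (x y z w : V), S x y z (t • w) = t * S x y z w := fun t x y z w => by
    rw [hS.pair z (t • w) x y, s2, hS.pair z w x y]
  have hH : ∀ a b c d, cpt S f a b c d =
      sJ a * sJ b * (sJ c * sJ d) * cpt S f (op a) (op b) (op c) (op d) := by
    intro a b c d
    unfold cpt
    rw [← hinv, hJf, hJf, hJf, hJf, hS.smul, s2, s3, s4]
    have hs : ∀ p : I6, sJ p = (((if p.2 then (-1 : ℝ) else 1) : ℝ) : ℂ) := by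
      intro p
      unfold sJ
      split_ifs <;> simp
    rw [hs, hs, hs, hs]
    push_cast
    ring
  intro i j k l hij hkl
  have h := Hc_op hH i j k l
  have h1 : lJ i * lJ j = -1 := by
    unfold lJ
    rw [hij]
    split_ifs
    · exact Complex.I_mul_I
    · rw [neg_mul_neg]
      exact Complex.I_mul_I
  have h2 : conj (lJ k) * conj (lJ l) = 1 := by
    rw [← map_mul]
    unfold lJ
    cases hk : k.2 <;> cases hl : l.2
    · rw [hk, hl] at hkl
      exact absurd rfl hkl
    · simp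
    · simp
    · rw [hk, hl] at hkl
      exact absurd rfl hkl
  rw [h1, h2] at h
  linear_combination h / 2

/-- **Complex structures.** -/
theorem J_six (e : OrthonormalBasis (Fin 3 × Bool) ℝ V) {S : V → V → V → V → ℝ}
    (hS : AlgCurv S) (J : V →ₗ[ℝ] V) (hJ : ∀ x, J (J x) = -x)
    (hinv : ∀ x y z w, S (J x) (J y) (J z) (J w) = S x y z w)
    (ha : ∀ x y, S x y x y ≤ S x y (J x) (J y))
    (hb : ∀ x y, S x y x y + S x (J y) x (J y) + S x (J x) y (J y) ≤ 0) : 0 ≤ - gbc e S := by
  obtain ⟨f, hf⟩ := J_basis (by rw [finrank_ob e]) J hJ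
  exact six_basis e hS f CJ CJ_det (even_J hS f J hJ hf hinv) (MM_J hS f J hJ hf hinv ha)
    (bb_J hS f J hJ hf hinv hb)

end geo

end Pool.Agent.H31HS
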