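import Pool.Agent.R735.HA.Trans

/-!
# Polarised Pfaffians of split families
-/

set_option autoImplicit false

namespace Pool.Agent.H31HS

open Finset Pool.Agent.TH598.GV Pool.Agent.W666.GB
open scoped ComplexConjugate

/-- the alternating matrix `x ∧ y` -/
def wd {I : Type} (x y : I → ℂ) : I → I → ℂ := fun i j => x i * y j - x j * y i

section wedge

variable {B : Type} [Fintype B] [DecidableEq B]

theorem cs_mul (σ τ : Equiv.Perm (B × Bool)) : cs (σ * τ) = cs σ * cs τ := by
  unfold cs
  rw [Equiv.Perm.sign_mul]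
  push_cast
  rfl

theorem cs_bs (u : B → Bool) : cs (bs u) = ∏ b, (if u b then (-1 : ℂ) else 1) := by
  unfold cs bs
  rw [Equiv.Perm.sign_prodCongrRight]
  push_cast
  refine Finset.prod_congr rfl fun b _ => ?_
  split_ifs with h
  · simp
  · simp

/-- rows of a family of pairs of vectors -/
def rows (x y : B → B × Bool → ℂ) : Matrix (B × Bool) (B × Bool) ℂ :=
  Matrix.of fun p q => if p.2 then y p.1 q else x p.1 q

/-- the polarised Pfaffian of decomposable forms -/
theorem PP_wd (x y : B → B × Bool → ℂ) :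
    PP (fun b => wd (x b) (y b)) = 2 ^ Fintype.card B * (rows x y).det := by
  have hd : (rows x y).det = ∑ σ : Equiv.Perm (B × Bool), cs σ *
      ∏ b : B, (x b (σ (b, false)) * y b (σ (b, true))) := by
    rw [← Matrix.det_transpose, Matrix.det_apply']
    refine Finset.sum_congr rfl fun σ _ => ?_
    rw [Fintype.prod_prod_type]
    congr 1
    refine Finset.prod_congr rfl fun b _ => ?_
    simp [rows, Matrix.transpose_apply, mul_comm]
  have h1 : ∀ u : B → Bool, (rows x y).det = ∑ σ : Equiv.Perm (B × Bool), cs σ *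
      ∏ b : B, (if u b then -(x b (σ (b, true)) * y b (σ (b, false)))
        else x b (σ (b, false)) * y b (σ (b, true))) := by
    intro u
    rw [hd, ← Equiv.sum_comp (Equiv.mulRight (bs u))]
    refine Finset.sum_congr rfl fun σ _ => ?_
    simp only [Equiv.coe_mulRight, cs_mul, Equiv.Perm.mul_apply, cs_bs]
    rw [mul_assoc, ← Finset.prod_mul_distrib]
    congr 1
    refine Finset.prod_congr rfl fun b _ => ?_
    by_cases hb : u b
    · simp [hb, bs]
    · simp [hb, bs]
  have h2 : ∑ u : B → Bool, (rows x y).det = 2 ^ Fintype.card B * (rows x y).det := by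
    rw [Finset.sum_const, Finset.card_univ, Fintype.card_fun, Fintype.card_bool, nsmul_eq_mul]
    push_cast
    rfl
  rw [← h2]
  have h3 : ∑ u : B → Bool, (rows x y).det = _ :=
    Finset.sum_congr (s₁ := (Finset.univ : Finset (B → Bool))) rfl fun u _ => h1 u
  rw [h3]
  symm
  rw [Finset.sum_comm]
  unfold PP
  refine Finset.sum_congr rfl fun σ _ => ?_
  rw [← Finset.mul_sum]
  congr 1
  rw [← Fintype.prod_sum (fun (b : B) (β : Bool) => if β
        then -(x b (σ (b, true)) * y b (σ (b, false)))
        else x b (σ (b, false)) * y b (σ (b, true)))]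
  refine Finset.prod_congr rfl fun b _ => ?_
  rw [Fintype.sum_bool]
  simp [wd]
  ring

/-- determinant of a matrix which does not mix the two sides -/
theorem det_split (X Y : Matrix B B ℂ) :
    (Matrix.of fun p q : B × Bool => if p.2 = q.2 then
      (if p.2 then Y p.1 q.1 else X p.1 q.1) else 0).det = X.det * Y.det := by
  have h := Matrix.det_fromBlocks_zero₂₁ X 0 Y
  rw [← h, ← Matrix.det_submatrix_equiv_self
    ((Equiv.prodComm B Bool).trans (Equiv.boolProdEquivSum B))]
  congr 1
  ext ⟨a, s⟩ ⟨c, t⟩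
  cases s <;> cases t <;> simp

end wedge

/-- the unit vector -/
def ev {I : Type} [DecidableEq I] (i : I) : I → ℂ := fun j => if i = j then 1 else 0

section mixed

variable {B : Type} [Fintype B] [DecidableEq B]

/-- multilinearity -/
theorem PP_sum {S : Type} [Fintype S] (c : B → S → ℂ) (g : B → S → B × Bool → B × Bool → ℂ) :
    PP (fun b i j => ∑ s, c b s * g b s i j) =
      ∑ φ : B → S, (∏ b, c b (φ b)) * PP (fun b => g b (φ b)) := by
  unfold PP
  simp only [Finset.prod_univ_sum, Fintype.piFinset_univ, Finset.mul_sum]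
  rw [Finset.sum_comm]
  refine Finset.sum_congr rfl fun φ _ => Finset.sum_congr rfl fun σ _ => ?_
  rw [Finset.prod_mul_distrib]
  ring

theorem sum_maps1 {I : Type} [Fintype I] [DecidableEq I] (T : (I → I) → ℂ) :
    ∑ φ : I → I, T φ * ((1 : Matrix I I ℂ).submatrix φ id).det =
      ∑ σ : Equiv.Perm I, cs σ * T σ := by
  have h := Pool.Agent.R735.HA.sum_maps (1 : Matrix I I ℂ) T
  rwa [Matrix.det_one, one_mul] at h

/-- the polarised Pfaffian of forms which mix the two sides -/
theorem PP_mixed (h : B → B × Bool → B × Bool → ℂ) (ha : ∀ b i j, h b j i = - h b i j)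
    (hm : ∀ b i j, i.2 = j.2 → h b i j = 0) :
    PP h = 2 ^ Fintype.card B * ∑ π : Equiv.Perm B, ∑ ρ : Equiv.Perm B, cs π * cs ρ *
      ∏ b, h b (π b, false) (ρ b, true) := by
  have h1 : h = fun b i j => ∑ p : B × B, h b (p.1, false) (p.2, true) *
      wd (ev (p.1, false)) (ev (p.2, true)) i j := by
    funext b i j
    obtain ⟨i, s⟩ := i
    obtain ⟨j, t⟩ := j
    rw [Fintype.sum_prod_type]
    cases s <;> cases t
    · rw [hm b (i, false) (j, false) rfl]
      simp [wd, ev]
    · simp [wd, ev]
    · rw [ha b (j, false) (i, true)]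
      simp [wd, ev]
    · rw [hm b (i, true) (j, true) rfl]
      simp [wd, ev]
  have h0 : PP h = ∑ φ : B → B × B, (∏ b, h b ((φ b).1, false) ((φ b).2, true)) *
      PP (fun b => wd (ev ((φ b).1, false)) (ev ((φ b).2, true))) := by
    rw [← PP_sum (fun b (p : B × B) => h b (p.1, false) (p.2, true))
      (fun _ p => wd (ev (p.1, false)) (ev (p.2, true)))]
    congr 1
  rw [h0]
  have h2 : ∀ φ : B → B × B, PP (fun b => wd (ev ((φ b).1, false)) (ev ((φ b).2, true))) =
      2 ^ Fintype.card B * (((1 : Matrix B B ℂ).submatrix (fun b => (φ b).1) id).det *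
        ((1 : Matrix B B ℂ).submatrix (fun b => (φ b).2) id).det) := by
    intro φ
    rw [PP_wd, ← det_split]
    congr 2
    ext ⟨a, s⟩ ⟨c, t⟩
    cases s <;> cases t <;> simp [rows, ev, Matrix.one_apply]
  simp only [h2]
  rw [← Equiv.sum_comp (Equiv.arrowProdEquivProdArrow B (fun _ => B) (fun _ => B)).symm]
  rw [Fintype.sum_prod_type]
  have h3 : ∀ φ : B → B, ∑ ψ : B → B, (∏ b, h b (φ b, false) (ψ b, true)) *
      (2 ^ Fintype.card B * (((1 : Matrix B B ℂ).submatrix φ id).det *
        ((1 : Matrix B B ℂ).submatrix ψ id).det)) =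
      (2 ^ Fintype.card B * ∑ ρ : Equiv.Perm B, cs ρ * ∏ b, h b (φ b, false) (ρ b, true)) *
        ((1 : Matrix B B ℂ).submatrix φ id).det := by
    intro φ
    rw [← sum_maps1 (fun ψ => ∏ b, h b (φ b, false) (ψ b, true)), Finset.mul_sum, Finset.sum_mul]
    exact Finset.sum_congr rfl fun ψ _ => by ring
  have h4 : ∑ φ : B → B, ∑ ψ : B → B, (∏ b, h b (φ b, false) (ψ b, true)) *
      (2 ^ Fintype.card B * (((1 : Matrix B B ℂ).submatrix φ id).det *
        ((1 : Matrix B B ℂ).submatrix ψ id).det)) = _ :=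
    (Finset.sum_congr rfl fun φ _ => h3 φ).trans
      (sum_maps1 (fun φ => 2 ^ Fintype.card B * ∑ ρ : Equiv.Perm B, cs ρ *
        ∏ b, h b (φ b, false) (ρ b, true)))
  refine Eq.trans ?_ (h4.trans ?_)
  · rfl
  · rw [Finset.mul_sum]
    refine Finset.sum_congr rfl fun π _ => ?_
    simp only [Finset.mul_sum]
    exact Finset.sum_congr rfl fun ρ _ => by ring

end mixed

end Pool.Agent.H31HS
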