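import Pool.Agent.H31HS.Pf

/-!
# Two forms which do not mix the sides and one which does
-/

set_option autoImplicit false

namespace Pool.Agent.H31HS

open Finset Pool.Agent.TH598.GV Pool.Agent.W666.GB
open scoped ComplexConjugate

/-- the six indices -/
abbrev I6 : Type := Fin 3 × Bool

/-- the polarised Pfaffian of three forms -/
noncomputable def P3 (f g k : I6 → I6 → ℂ) : ℂ :=
  ∑ σ : Equiv.Perm I6, cs σ * (f (σ (0, false)) (σ (0, true)) * g (σ (1, false)) (σ (1, true)) *
    k (σ (2, false)) (σ (2, true)))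

theorem P3_eq (f g k : I6 → I6 → ℂ) : P3 f g k = PP ![f, g, k] := by
  unfold P3 PP
  refine Finset.sum_congr rfl fun σ _ => ?_
  rw [Fin.prod_univ_three]
  rfl

theorem P3_1 {S : Type} [Fintype S] (a : S → ℂ) (f : S → I6 → I6 → ℂ) (g k : I6 → I6 → ℂ) :
    P3 (fun i j => ∑ s, a s * f s i j) g k = ∑ s, a s * P3 (f s) g k := by
  unfold P3
  simp only [Finset.mul_sum, Finset.sum_mul]
  rw [Finset.sum_comm]
  exact Finset.sum_congr rfl fun s _ => Finset.sum_congr rfl fun σ _ => by ring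

theorem P3_2 {S : Type} [Fintype S] (a : S → ℂ) (f : S → I6 → I6 → ℂ) (g k : I6 → I6 → ℂ) :
    P3 g (fun i j => ∑ s, a s * f s i j) k = ∑ s, a s * P3 g (f s) k := by
  unfold P3
  simp only [Finset.mul_sum, Finset.sum_mul]
  rw [Finset.sum_comm]
  exact Finset.sum_congr rfl fun s _ => Finset.sum_congr rfl fun σ _ => by ring

theorem P3_3 {S : Type} [Fintype S] (a : S → ℂ) (f : S → I6 → I6 → ℂ) (g k : I6 → I6 → ℂ) :
    P3 g k (fun i j => ∑ s, a s * f s i j) = ∑ s, a s * P3 g k (f s) := by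
  unfold P3
  simp only [Finset.mul_sum]
  rw [Finset.sum_comm]
  exact Finset.sum_congr rfl fun s _ => Finset.sum_congr rfl fun σ _ => by ring

/-- elementary form which does not mix the sides -/
noncomputable def eM (s : I6) : I6 → I6 → ℂ := wd (ev (s.1 + 1, s.2)) (ev (s.1 + 2, s.2))

/-- elementary form which mixes the sides -/
noncomputable def eX (p : Fin 3 × Fin 3) : I6 → I6 → ℂ := wd (ev (p.1, false)) (ev (p.2, true))

/-- coordinate of a form which does not mix the sides -/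
def cM (m : I6 → I6 → ℂ) (s : I6) : ℂ := m (s.1 + 1, s.2) (s.1 + 2, s.2)

theorem expandM (m : I6 → I6 → ℂ) (ha : ∀ i j, m j i = - m i j)
    (hm : ∀ i j, i.2 ≠ j.2 → m i j = 0) : m = fun i j => ∑ s, cM m s * eM s i j := by
  have h0 : ∀ i, m i i = 0 := by
    intro i
    have := ha i i
    linear_combination (1 / 2 : ℂ) * this
  have h1 : ∀ s, m (1, s) (0, s) = - m (0, s) (1, s) := fun s => ha _ _
  have h2 : ∀ s, m (2, s) (1, s) = - m (1, s) (2, s) := fun s => ha _ _
  have h3 : ∀ s, m (0, s) (2, s) = - m (2, s) (0, s) := fun s => ha _ _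
  funext i j
  obtain ⟨i, s⟩ := i
  obtain ⟨j, t⟩ := j
  rw [Fintype.sum_prod_type]
  simp only [Fin.sum_univ_three, Fintype.sum_bool]
  cases s <;> cases t
  · fin_cases i <;> fin_cases j <;> simp [cM, eM, wd, ev, h0, h1, h2, h3]
  · rw [hm (i, false) (j, true) (by simp)]
    fin_cases i <;> fin_cases j <;> simp [cM, eM, wd, ev]
  · rw [hm (i, true) (j, false) (by simp)]
    fin_cases i <;> fin_cases j <;> simp [cM, eM, wd, ev]
  · fin_cases i <;> fin_cases j <;> simp [cM, eM, wd, ev, h0, h1, h2, h3]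

theorem expandX (t : I6 → I6 → ℂ) (ha : ∀ i j, t j i = - t i j)
    (hm : ∀ i j, i.2 = j.2 → t i j = 0) :
    t = fun i j => ∑ p : Fin 3 × Fin 3, t (p.1, false) (p.2, true) * eX p i j := by
  funext i j
  obtain ⟨i, s⟩ := i
  obtain ⟨j, u⟩ := j
  rw [Fintype.sum_prod_type]
  cases s <;> cases u
  · rw [hm (i, false) (j, false) rfl]
    simp [eX, wd, ev]
  · simp [eX, wd, ev]
  · rw [ha (j, false) (i, true)]
    simp [eX, wd, ev]
  · rw [hm (i, true) (j, true) rfl]
    simp [eX, wd, ev]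

/-- `P3` of decomposable forms -/
theorem P3_wd (x y x' y' x'' y'' : I6 → ℂ) :
    P3 (wd x y) (wd x' y') (wd x'' y'') = 8 * (rows ![x, x', x''] ![y, y', y'']).det := by
  have h := PP_wd ![x, x', x''] ![y, y', y'']
  rw [P3_eq]
  have h1 : (![wd x y, wd x' y', wd x'' y''] : Fin 3 → I6 → I6 → ℂ) =
      fun b => wd ((![x, x', x''] : Fin 3 → I6 → ℂ) b) ((![y, y', y''] : Fin 3 → I6 → ℂ) b) := by
    funext b
    fin_cases b <;> rfl
  rw [h1, h]
  norm_num

/-- exchange of the rows `(0, true)` and `(1, false)` -/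
theorem rows_swap (x y x' y' x'' y'' : I6 → ℂ) :
    (rows ![x, x', x''] ![y, y', y'']).det = - (rows ![x, y, x''] ![x', y', y'']).det := by
  have h := Matrix.det_permute (Equiv.swap ((0 : Fin 3), true) ((1 : Fin 3), false))
    (rows ![x, y, x''] ![x', y', y''])
  rw [Equiv.Perm.sign_swap (by simp)] at h
  have h1 : (rows ![x, y, x''] ![x', y', y'']).submatrix
      (Equiv.swap ((0 : Fin 3), true) ((1 : Fin 3), false)) id = rows ![x, x', x''] ![y, y', y''] := by
    ext ⟨i, s⟩ q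
    fin_cases i <;> cases s <;> simp [rows, Equiv.swap_apply_def]
  rw [← h1, h]
  push_cast
  ring

/-- rows on prescribed sides -/
theorem rows_split (X Y : Fin 3 → Fin 3) :
    (rows (fun b => ev (X b, false)) (fun b => ev (Y b, true))).det =
      ((1 : Matrix (Fin 3) (Fin 3) ℂ).submatrix X id).det *
        ((1 : Matrix (Fin 3) (Fin 3) ℂ).submatrix Y id).det := by
  rw [← det_split]
  congr 1
  ext ⟨a, s⟩ ⟨c, t⟩
  cases s <;> cases t <;> simp [rows, ev, Matrix.one_apply]

theorem det_cyc (c a : Fin 3) :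
    ((1 : Matrix (Fin 3) (Fin 3) ℂ).submatrix ![c + 1, c + 2, a] id).det =
      if c = a then 1 else 0 := by
  rw [Matrix.det_fin_three]
  fin_cases c <;> fin_cases a <;> simp [Matrix.one_apply]

/-- three of the six indices are on the second side -/
theorem cnt (σ : Equiv.Perm I6) :
    ((σ (0, false)).2.toNat + (σ (0, true)).2.toNat) + ((σ (1, false)).2.toNat +
      (σ (1, true)).2.toNat) + ((σ (2, false)).2.toNat + (σ (2, true)).2.toNat) = 3 := by
  have h : ∑ p : I6, (σ p).2.toNat = ∑ p : I6, p.2.toNat :=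
    Equiv.sum_comp σ (fun p : I6 => p.2.toNat)
  rw [Fintype.sum_prod_type, Fintype.sum_prod_type] at h
  simp only [Fin.sum_univ_three, Fintype.sum_bool, Bool.toNat_true, Bool.toNat_false] at h
  omega

theorem P3_zero (f g k : I6 → I6 → ℂ) (h : ∀ i j i' j' i'' j'' : I6,
    (i.2.toNat + j.2.toNat) + (i'.2.toNat + j'.2.toNat) + (i''.2.toNat + j''.2.toNat) = 3 →
      f i j * g i' j' * k i'' j'' = 0) : P3 f g k = 0 := by
  unfold P3
  refine Finset.sum_eq_zero fun σ _ => ?_
  rw [h _ _ _ _ _ _ (cnt σ), mul_zero]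

theorem P3_MMM (f g k : I6 → I6 → ℂ) (hf : ∀ i j, i.2 ≠ j.2 → f i j = 0)
    (hg : ∀ i j, i.2 ≠ j.2 → g i j = 0) (hk : ∀ i j, i.2 ≠ j.2 → k i j = 0) : P3 f g k = 0 := by
  refine P3_zero f g k fun i j i' j' i'' j'' h => ?_
  by_cases h1 : i.2 = j.2
  · by_cases h2 : i'.2 = j'.2
    · by_cases h3 : i''.2 = j''.2
      · rw [h1, h2, h3] at h
        omega
      · rw [hk _ _ h3, mul_zero]
    · rw [hg _ _ h2, mul_zero, zero_mul]
  · rw [hf _ _ h1, zero_mul, zero_mul]

theorem toNat_ne {a b : Bool} (h : a ≠ b) : a.toNat + b.toNat = 1 := by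
  cases a <;> cases b <;> simp_all

theorem P3_MXX (f g k : I6 → I6 → ℂ) (hf : ∀ i j, i.2 ≠ j.2 → f i j = 0)
    (hg : ∀ i j, i.2 = j.2 → g i j = 0) (hk : ∀ i j, i.2 = j.2 → k i j = 0) : P3 f g k = 0 := by
  refine P3_zero f g k fun i j i' j' i'' j'' h => ?_
  by_cases h1 : i.2 = j.2
  · by_cases h2 : i'.2 = j'.2
    · rw [hg _ _ h2, mul_zero, zero_mul]
    · by_cases h3 : i''.2 = j''.2
      · rw [hk _ _ h3, mul_zero]
      · rw [h1, toNat_ne h2, toNat_ne h3] at h
        omega
  · rw [hf _ _ h1, zero_mul, zero_mul]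

/-- interchange of the first two forms -/
theorem P3_comm (f g k : I6 → I6 → ℂ) : P3 f g k = P3 g f k := by
  let κ : Equiv.Perm I6 := Equiv.prodCongrLeft (fun _ : Bool => Equiv.swap (0 : Fin 3) 1)
  have hκ : cs κ = 1 := by
    unfold cs
    have : Equiv.Perm.sign κ = 1 := by
      simp only [κ]
      rw [Equiv.Perm.sign_prodCongrLeft]
      decide
    rw [this]
    simp
  unfold P3
  rw [← Equiv.sum_comp (Equiv.mulRight κ)]
  refine Finset.sum_congr rfl fun σ _ => ?_
  simp only [Equiv.coe_mulRight, cs_mul, hκ, mul_one, Equiv.Perm.mul_apply]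
  have h0 : ∀ b, κ (0, b) = (1, b) := fun b => by simp [κ]
  have h1 : ∀ b, κ (1, b) = (0, b) := fun b => by simp [κ]
  have h2 : ∀ b, κ (2, b) = (2, b) := fun b => by
    simp only [κ, Equiv.prodCongrLeft_apply]
    rw [Equiv.swap_apply_of_ne_of_ne (by decide) (by decide)]
  rw [h0, h0, h1, h1, h2, h2]
  ring

/-- interchange of the last two forms -/
theorem P3_comm' (f g k : I6 → I6 → ℂ) : P3 f g k = P3 f k g := by
  let κ : Equiv.Perm I6 := Equiv.prodCongrLeft (fun _ : Bool => Equiv.swap (1 : Fin 3) 2)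
  have hκ : cs κ = 1 := by
    unfold cs
    have : Equiv.Perm.sign κ = 1 := by
      simp only [κ]
      rw [Equiv.Perm.sign_prodCongrLeft]
      decide
    rw [this]
    simp
  unfold P3
  rw [← Equiv.sum_comp (Equiv.mulRight κ)]
  refine Finset.sum_congr rfl fun σ _ => ?_
  simp only [Equiv.coe_mulRight, cs_mul, hκ, mul_one, Equiv.Perm.mul_apply]
  have h0 : ∀ b, κ (1, b) = (2, b) := fun b => by simp [κ]
  have h1 : ∀ b, κ (2, b) = (1, b) := fun b => by simp [κ]
  have h2 : ∀ b, κ (0, b) = (0, b) := fun b => by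
    simp only [κ, Equiv.prodCongrLeft_apply]
    rw [Equiv.swap_apply_of_ne_of_ne (by decide) (by decide)]
  rw [h0, h0, h1, h1, h2, h2]
  ring

theorem eM_side (s : I6) (i j : I6) (h : ¬ (i.2 = s.2 ∧ j.2 = s.2)) : eM s i j = 0 := by
  obtain ⟨c, s⟩ := s
  obtain ⟨i, u⟩ := i
  obtain ⟨j, v⟩ := j
  cases s <;> cases u <;> cases v <;> simp_all [eM, wd, ev]

theorem eX_side (p : Fin 3 × Fin 3) (i j : I6) (h : i.2 = j.2) : eX p i j = 0 := by
  obtain ⟨i, u⟩ := i
  obtain ⟨j, v⟩ := j
  cases u <;> cases v <;> simp_all [eX, wd, ev]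

/-- the values of `P3` on the elementary forms -/
theorem value01 (c d : Fin 3) (p : Fin 3 × Fin 3) :
    P3 (eM (c, false)) (eM (d, true)) (eX p) =
      -8 * ((if c = p.1 then 1 else 0) * (if d = p.2 then 1 else 0)) := by
  unfold eM eX
  rw [P3_wd, rows_swap]
  have h := rows_split ![c + 1, c + 2, p.1] ![d + 1, d + 2, p.2]
  rw [det_cyc, det_cyc] at h
  have e1 : (fun b => ev (((![c + 1, c + 2, p.1] : Fin 3 → Fin 3) b, false) : I6)) =
      (![ev (c + 1, false), ev (c + 2, false), ev (p.1, false)] : Fin 3 → I6 → ℂ) := by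
    funext b
    fin_cases b <;> rfl
  have e2 : (fun b => ev (((![d + 1, d + 2, p.2] : Fin 3 → Fin 3) b, true) : I6)) =
      (![ev (d + 1, true), ev (d + 2, true), ev (p.2, true)] : Fin 3 → I6 → ℂ) := by
    funext b
    fin_cases b <;> rfl
  rw [e1, e2] at h
  simp only at h ⊢
  rw [h]
  ring

theorem value10 (c d : Fin 3) (p : Fin 3 × Fin 3) :
    P3 (eM (c, true)) (eM (d, false)) (eX p) =
      -8 * ((if d = p.1 then 1 else 0) * (if c = p.2 then 1 else 0)) := by
  rw [P3_comm, value01]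

theorem value_same (c d : Fin 3) (s : Bool) (p : Fin 3 × Fin 3) :
    P3 (eM (c, s)) (eM (d, s)) (eX p) = 0 := by
  refine P3_zero _ _ _ fun i j i' j' i'' j'' h => ?_
  by_cases h1 : i.2 = s ∧ j.2 = s
  · by_cases h2 : i'.2 = s ∧ j'.2 = s
    · by_cases h3 : i''.2 = j''.2
      · rw [eX_side _ _ _ h3, mul_zero]
      · rw [h1.1, h1.2, h2.1, h2.2, toNat_ne h3] at h
        cases s <;> simp at h
    · rw [eM_side (d, s) _ _ h2, mul_zero, zero_mul]
  · rw [eM_side (c, s) _ _ h1, zero_mul, zero_mul]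

/-- **The polarised Pfaffian of two forms which do not mix the sides and one which does.** -/
theorem P3_MMX (f g t : I6 → I6 → ℂ) (haf : ∀ i j, f j i = - f i j)
    (hag : ∀ i j, g j i = - g i j) (hat : ∀ i j, t j i = - t i j)
    (hf : ∀ i j, i.2 ≠ j.2 → f i j = 0) (hg : ∀ i j, i.2 ≠ j.2 → g i j = 0)
    (ht : ∀ i j, i.2 = j.2 → t i j = 0) :
    P3 f g t = -8 * ∑ c : Fin 3, ∑ d : Fin 3,
      (cM f (c, false) * cM g (d, true) + cM f (d, true) * cM g (c, false)) *
        t (c, false) (d, true) := by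
  conv_lhs => rw [expandM f haf hf, expandM g hag hg, expandX t hat ht]
  rw [P3_1]
  simp only [P3_2, P3_3]
  simp only [Fintype.sum_prod_type, Fintype.sum_bool, value01, value10, value_same,
    Fin.sum_univ_three]
  simp only [Fin.isValue, show ((0 : Fin 3) = 1) = False by simp, show ((0 : Fin 3) = 2) = False by
    simp, show ((1 : Fin 3) = 0) = False by simp, show ((1 : Fin 3) = 2) = False by simp,
    show ((2 : Fin 3) = 0) = False by simp, show ((2 : Fin 3) = 1) = False by simp, if_true,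
    if_false, mul_zero, mul_one, zero_mul, add_zero, zero_add]
  ring

end Pool.Agent.H31HS
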